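import Mathlib

/-!
# Fill (size 4): from geometric sequences to all `N`

PROOF.  Let `A M = ∑_{n ∈ Icc 1 M} a n`, so `‖A N - A M‖ ≤ N - M` for `M ≤ N`.  Given `ε > 0` choose
`k` with `r := 1 + 1/(k+1)`, `r - 1 ≤ ε / 8`.  For all `i ≥ i₀` (from the hypothesis with `ε / 4`):
`‖A ⌊r^i⌋₊‖ ≤ (τ + ε/4) ⌊r^i⌋₊` (for `⌊r^i⌋₊ ≥ 1`).  For `N ≥ r ^ i₀` let `i ≥ i₀` with
`r ^ i ≤ N < r ^ (i+1)` (`exists_nat_pow_near`), `M = ⌊r^i⌋₊ ≤ N`, `M + 1 > r ^ i`; then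
`N - M ≤ r ^ (i+1) - r ^ i + 1 = (r - 1) r ^ i + 1 ≤ (ε/8) N + 1`, so
`‖A N‖ / N ≤ (τ + ε/4) M / N + ε/8 + 1/N ≤ τ + ε` for `N ≥ 8/ε` (note `M ≤ N`, `0 ≤ τ`).
-/

open Filter Topology

namespace Pool.Agent.RSC

private theorem Fill_diff {a : ℕ → ℂ} (ha : ∀ n, ‖a n‖ ≤ 1) {M N : ℕ} (h : M ≤ N) :
    ‖∑ n ∈ Finset.Icc 1 N, a n‖ ≤ ‖∑ n ∈ Finset.Icc 1 M, a n‖ + ((N : ℝ) - M) := by
  have h0 : ∀ K : ℕ, Finset.Icc 1 K = Finset.Ioc 0 K := fun K => by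
    ext x
    simp only [Finset.mem_Icc, Finset.mem_Ioc]
    omega
  rw [h0 N, h0 M, ← Finset.sum_Ioc_consecutive a (Nat.zero_le M) h]
  refine (norm_add_le _ _).trans (add_le_add le_rfl ?_)
  refine (norm_sum_le _ _).trans ?_
  calc ∑ i ∈ Finset.Ioc M N, ‖a i‖ ≤ ∑ i ∈ Finset.Ioc M N, (1 : ℝ) :=
        Finset.sum_le_sum fun i _ => ha i
    _ = (N : ℝ) - M := by
        rw [Finset.sum_const, Nat.card_Ioc, nsmul_eq_mul, mul_one, Nat.cast_sub h]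

theorem fill {a : ℕ → ℂ} (ha : ∀ n, ‖a n‖ ≤ 1) {τ : ℝ} (hτ : 0 ≤ τ)
    (h : ∀ k : ℕ, ∀ ε : ℝ, 0 < ε → ∀ᶠ i : ℕ in atTop,
      ‖(1 / ((⌊(1 + 1 / ((k : ℝ) + 1)) ^ i⌋₊ : ℕ) : ℂ)) *
        ∑ n ∈ Finset.Icc 1 ⌊(1 + 1 / ((k : ℝ) + 1)) ^ i⌋₊, a n‖ ≤ τ + ε) :
    ∀ ε : ℝ, 0 < ε → ∀ᶠ N : ℕ in atTop,
      ‖(1 / (N : ℂ)) * ∑ n ∈ Finset.Icc 1 N, a n‖ ≤ τ + ε := by
  intro ε hε
  obtain ⟨k, hk⟩ := exists_nat_one_div_lt (show (0 : ℝ) < ε / 8 by positivity)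
  set r : ℝ := 1 + 1 / ((k : ℝ) + 1) with hr
  have hk0 : (0 : ℝ) < 1 / ((k : ℝ) + 1) := by positivity
  have hr1 : 1 < r := by rw [hr]; linarith
  obtain ⟨i₀, hi₀⟩ := eventually_atTop.1 (h k (ε / 4) (by positivity))
  have e1 : ∀ᶠ N : ℕ in atTop, r ^ i₀ ≤ (N : ℝ) :=
    tendsto_natCast_atTop_atTop.eventually_ge_atTop (r ^ i₀)
  have e2 : ∀ᶠ N : ℕ in atTop, 8 / ε ≤ (N : ℝ) :=
    tendsto_natCast_atTop_atTop.eventually_ge_atTop (8 / ε)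
  filter_upwards [e1, e2, eventually_ge_atTop 1] with N h1 h2 h3
  have hN1 : (1 : ℝ) ≤ N := by exact_mod_cast h3
  have hN0 : (0 : ℝ) < N := by linarith
  obtain ⟨i, hi1, hi2⟩ := exists_nat_pow_near hN1 hr1
  have hii : i₀ ≤ i := by
    have h4 : r ^ i₀ < r ^ (i + 1) := lt_of_le_of_lt h1 hi2
    have h5 := (pow_lt_pow_iff_right₀ hr1).1 h4
    omega
  have hri : 0 < r ^ i := by positivity
  set M : ℕ := ⌊r ^ i⌋₊ with hM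
  have hM1 : (M : ℝ) ≤ r ^ i := Nat.floor_le hri.le
  have hM2 : r ^ i < (M : ℝ) + 1 := Nat.lt_floor_add_one _
  have hMN : M ≤ N := by
    have : (M : ℝ) ≤ N := hM1.trans hi1
    exact_mod_cast this
  have hMpos : 0 < M := Nat.floor_pos.2 (one_le_pow₀ hr1.le)
  have hM0 : (0 : ℝ) < M := by exact_mod_cast hMpos
  have hMle : (M : ℝ) ≤ N := by exact_mod_cast hMN
  have hA : ‖∑ n ∈ Finset.Icc 1 M, a n‖ ≤ (τ + ε / 4) * M := by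
    have h4 := hi₀ i hii
    rw [norm_mul, norm_div, norm_one, Complex.norm_natCast, ← hr, ← hM] at h4
    rw [one_div, inv_mul_le_iff₀ hM0] at h4
    linarith [mul_comm (M : ℝ) (τ + ε / 4)]
  have hd := Fill_diff ha hMN
  have hNM : (N : ℝ) - M ≤ ε / 8 * N + 1 := by
    have h4 : r ^ (i + 1) - r ^ i = (r - 1) * r ^ i := by ring
    have h5 : r - 1 ≤ ε / 8 := by rw [hr]; linarith
    have h6 : (r - 1) * r ^ i ≤ ε / 8 * N :=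
      mul_le_mul h5 hi1 hri.le (by positivity)
    linarith
  rw [norm_mul, norm_div, norm_one, Complex.norm_natCast, one_div, inv_mul_le_iff₀ hN0]
  have h8 : 1 ≤ ε / 8 * N := by
    have := (div_le_iff₀ hε).1 h2
    linarith
  have h9 : (τ + ε / 4) * M ≤ (τ + ε / 4) * N :=
    mul_le_mul_of_nonneg_left hMle (by positivity)
  nlinarith

end Pool.Agent.RSC
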