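import Pool.Agent.RSC.Bore
import Pool.Agent.RSC.Fill

/-!
# AsAv (size 2): almost sure bound for all `N`

PROOF.  `ae_all_iff` over `k : ℕ` of `ae_geometric` with `r = 1 + 1/(k+1) > 1`; for such an `ω`
apply `fill` to `a n = Θ (fun h => χ ω (n + h))`, `‖a n‖ ≤ 1` by `hΘ.bd` and `hχ.bd`.
-/

open Filter Topology MeasureTheory ProbabilityTheory ComplexConjugate

namespace Pool.Agent.RSC

variable {Ω : Type*} [MeasurableSpace Ω] {μ : Measure Ω} {χ : Ω → ℕ → ℂ}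

theorem ae_avg [IsProbabilityMeasure μ] (hχ : RM μ χ) (hV : VarDiv μ χ) {L : ℕ}
    {Θ : (Fin L → ℂ) → ℂ} {κ τ : ℝ} (hΘ : Admis μ L Θ κ τ) (hκ : 0 < κ) (hτ : 0 ≤ τ) :
    ∀ᵐ ω ∂μ, ∀ ε : ℝ, 0 < ε → ∀ᶠ N : ℕ in atTop, ‖avg Θ (χ ω) N‖ ≤ τ + ε := by
  have h1 : ∀ k : ℕ, ∀ᵐ ω ∂μ, ∀ ε : ℝ, 0 < ε → ∀ᶠ i : ℕ in atTop,
      ‖avg Θ (χ ω) ⌊(1 + 1 / ((k : ℝ) + 1)) ^ i⌋₊‖ ≤ τ + ε := by
    intro k
    refine ae_geometric hχ hV hΘ hκ hτ ?_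
    have : (0 : ℝ) < 1 / ((k : ℝ) + 1) := by positivity
    linarith
  filter_upwards [ae_all_iff.mpr h1] with ω hω
  have h2 := fill (a := fun n => Θ (fun h : Fin L => χ ω (n + h)))
    (fun n => hΘ.bd _ (fun h => hχ.bd ω _)) hτ (fun k ε hε => hω k ε hε)
  intro ε hε
  exact h2 ε hε

end Pool.Agent.RSC
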