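import Mathlib

/-!
# Grow (size 3): the scales `N_i = ⌊r ^ i⌋₊`, `y_i = ⌊(log N_i)²⌋₊`

PROOFS.
* `floor_pow_tendsto`: `tendsto_nat_floor_atTop.comp (tendsto_pow_atTop_atTop_of_one_lt hr)`.
* `log_sq_tendsto`: `Real.tendsto_log_atTop`, `tendsto_natCast_atTop_atTop`,
  `tendsto_pow_atTop`, `tendsto_nat_floor_atTop`.
* `log_sq_lower`: `N_i + 1 > r ^ i`, so for large `i`: `2 N_i ≥ r ^ i`,
  `log N_i ≥ i log r - log 2 ≥ (i / 2) log r`, so `(log N_i)² ≥ (log r / 2)² i²`, and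
  `⌊x⌋₊ ≥ x - 1 ≥ x / 2` for `x ≥ 2`: take `c = (log r / 2) ^ 2 / 2`.
-/

open Filter Topology

namespace Pool.Agent.RSC

theorem floor_pow_tendsto {r : ℝ} (hr : 1 < r) :
    Tendsto (fun i : ℕ => ⌊r ^ i⌋₊) atTop atTop :=
  tendsto_nat_floor_atTop.comp (tendsto_pow_atTop_atTop_of_one_lt hr)

theorem log_sq_tendsto {r : ℝ} (hr : 1 < r) :
    Tendsto (fun i : ℕ => ⌊Real.log (⌊r ^ i⌋₊ : ℕ) ^ 2⌋₊) atTop atTop := by
  have h1 : Tendsto (fun i : ℕ => Real.log (⌊r ^ i⌋₊ : ℕ)) atTop atTop :=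
    Real.tendsto_log_atTop.comp (tendsto_natCast_atTop_atTop.comp (floor_pow_tendsto hr))
  exact tendsto_nat_floor_atTop.comp ((tendsto_pow_atTop two_ne_zero).comp h1)

theorem log_sq_lower {r : ℝ} (hr : 1 < r) :
    ∃ c : ℝ, 0 < c ∧ ∀ᶠ i : ℕ in atTop,
      c * (i : ℝ) ^ 2 ≤ (⌊Real.log (⌊r ^ i⌋₊ : ℕ) ^ 2⌋₊ : ℕ) := by
  have hl : 0 < Real.log r := Real.log_pos hr
  refine ⟨(Real.log r / 2) ^ 2 / 2, by positivity, ?_⟩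
  have h1 : Tendsto (fun i : ℕ => (i : ℝ)) atTop atTop := tendsto_natCast_atTop_atTop
  have h2 : ∀ᶠ i : ℕ in atTop, 2 * Real.log 2 / Real.log r ≤ (i : ℝ) :=
    h1.eventually_ge_atTop _
  have h3 : ∀ᶠ i : ℕ in atTop, 2 * √2 / Real.log r ≤ (i : ℝ) := h1.eventually_ge_atTop _
  have h4 : ∀ᶠ i : ℕ in atTop, 2 ≤ r ^ i :=
    (tendsto_pow_atTop_atTop_of_one_lt hr).eventually_ge_atTop 2
  filter_upwards [h2, h3, h4] with i h2 h3 h4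
  have hr0 : 0 < r := lt_trans one_pos hr
  have hN : r ^ i < (⌊r ^ i⌋₊ : ℝ) + 1 := Nat.lt_floor_add_one _
  have hN2 : r ^ i / 2 ≤ (⌊r ^ i⌋₊ : ℝ) := by linarith
  have hlog : (i : ℝ) * Real.log r - Real.log 2 ≤ Real.log (⌊r ^ i⌋₊ : ℝ) := by
    have h5 : Real.log (r ^ i / 2) = (i : ℝ) * Real.log r - Real.log 2 := by
      rw [Real.log_div (by positivity) (by norm_num), Real.log_pow]
    rw [← h5]
    exact Real.log_le_log (by positivity) hN2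
  rw [div_le_iff₀ hl] at h2 h3
  have h6 : (i : ℝ) * (Real.log r / 2) ≤ Real.log (⌊r ^ i⌋₊ : ℝ) := by linarith
  have h7 : √2 ≤ (i : ℝ) * (Real.log r / 2) := by linarith
  have h70 : 0 ≤ √2 := Real.sqrt_nonneg 2
  have h8 : 2 ≤ ((i : ℝ) * (Real.log r / 2)) ^ 2 := by
    have h9 : √2 ^ 2 = 2 := Real.sq_sqrt (by norm_num)
    exact h9.symm.le.trans (pow_le_pow_left₀ h70 h7 2)
  have h10 : ((i : ℝ) * (Real.log r / 2)) ^ 2 ≤ Real.log (⌊r ^ i⌋₊ : ℝ) ^ 2 :=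
    pow_le_pow_left₀ (h70.trans h7) h6 2
  have h11 : Real.log (⌊r ^ i⌋₊ : ℝ) ^ 2 < (⌊Real.log (⌊r ^ i⌋₊ : ℝ) ^ 2⌋₊ : ℝ) + 1 :=
    Nat.lt_floor_add_one _
  have h12 : (Real.log r / 2) ^ 2 / 2 * (i : ℝ) ^ 2 = ((i : ℝ) * (Real.log r / 2)) ^ 2 / 2 := by
    ring
  rw [h12]
  linarith

end Pool.Agent.RSC
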