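import Pool.Agent.RSC.Prob
import Pool.Agent.RSC.Grow

/-!
# Bore (size 5): Borel-Cantelli along `N_i = ⌊r ^ i⌋₊`

PROOF.  It suffices to treat one `ε > 0` (countable intersection over `ε = 1 / (k + 1)`,
`ae_all_iff`, `exists_nat_one_div_lt`).  Let `N = ⌊r ^ i⌋₊`, `y = ⌊(log N)²⌋₊`,
`A = ∑ p ∈ Ioc y N with p.Prime, Vr p / p`, which is the sequence of `VarDiv` at `N`
(`Nat.floor_lt`: `(log N)² < p ↔ y < p`), so `A → ∞` as `i → ∞` (`hV.comp (floor_pow_tendsto hr)`).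
For all large `i`: `y ≥ max 1 L`, `N ≥ max 1 L`, `A > 0`, `exp (-A / 4) ≤ κ`,
`L (12 / A + 1 / y) + L / N ≤ ε / 2`; then by `prob_avg` with `t = ε / 2`:
`μ {ω | τ + ε < ‖avg Θ (χ ω) N‖} ≤ ofReal (36 L² / (y (ε/2)²)) ≤ ofReal (C / i²)` with
`C = 144 L² / (ε² c)`, `c` of `log_sq_lower`.  So the sum over `i ≥ i₀` of the measures is finite
(`Real.summable_one_div_nat_pow`, `Summable.tsum_ofReal_ne_top`), and
`measure_setOf_frequently_eq_zero` / `ae_eventually_notMem` applied to the sets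
`E i = if i₀ ≤ i then {...} else ∅` (or to the shifted sequence) gives the claim.
-/

open Filter Topology MeasureTheory ProbabilityTheory ComplexConjugate

namespace Pool.Agent.RSC

variable {Ω : Type*} [MeasurableSpace Ω] {μ : Measure Ω} {χ : Ω → ℕ → ℂ}

theorem ae_geometric [IsProbabilityMeasure μ] (hχ : RM μ χ) (hV : VarDiv μ χ) {L : ℕ}
    {Θ : (Fin L → ℂ) → ℂ} {κ τ : ℝ} (hΘ : Admis μ L Θ κ τ) (hκ : 0 < κ) (hτ : 0 ≤ τ)
    {r : ℝ} (hr : 1 < r) :
    ∀ᵐ ω ∂μ, ∀ ε : ℝ, 0 < ε → ∀ᶠ i : ℕ in atTop, ‖avg Θ (χ ω) ⌊r ^ i⌋₊‖ ≤ τ + ε := by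
  -- the quantities
  set Nf : ℕ → ℕ := fun i => ⌊r ^ i⌋₊ with hNf
  set yf : ℕ → ℕ := fun i => ⌊Real.log (⌊r ^ i⌋₊ : ℕ) ^ 2⌋₊ with hyf
  set Af : ℕ → ℝ := fun i => ∑ p ∈ Finset.Ioc (yf i) (Nf i) with p.Prime, Vr μ χ p / p with hAf
  have hNt : Tendsto Nf atTop atTop := floor_pow_tendsto hr
  have hyt : Tendsto yf atTop atTop := log_sq_tendsto hr
  have hAeq : ∀ i, Af i = ∑ p ∈ (Finset.range (Nf i + 1)).filter
      (fun p : ℕ => p.Prime ∧ Real.log (Nf i) ^ 2 < (p : ℝ)), Vr μ χ p / p := by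
    intro i
    apply Finset.sum_congr _ (fun _ _ => rfl)
    ext p
    simp only [Finset.mem_filter, Finset.mem_Ioc, Finset.mem_range, hyf, hNf]
    rw [Nat.floor_lt (by positivity)]
    constructor
    · rintro ⟨⟨h1, h2⟩, h3⟩
      exact ⟨by omega, h3, h1⟩
    · rintro ⟨h1, h2, h3⟩
      exact ⟨⟨h3, by omega⟩, h2⟩
  have hAt : Tendsto Af atTop atTop := by
    have h1 := hV.comp hNt
    refine h1.congr fun i => ?_
    rw [hAeq]
    rfl
  obtain ⟨c, hc, hclow⟩ := log_sq_lower hr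
  have key : ∀ k : ℕ, ∀ᵐ ω ∂μ, ∀ᶠ i : ℕ in atTop,
      ‖avg Θ (χ ω) (Nf i)‖ ≤ τ + 1 / ((k : ℝ) + 1) := by
    intro k
    set ε : ℝ := 1 / ((k : ℝ) + 1) with hε
    have hε0 : 0 < ε := by positivity
    -- the error tends to zero
    have herr : Tendsto (fun i => (L : ℝ) * (12 / Af i + 1 / (yf i : ℝ)) + L / (Nf i : ℝ)) atTop
        (𝓝 (L * (0 + 0) + 0)) := by
      apply Tendsto.add
      · apply Tendsto.const_mul
        apply Tendsto.add
        · exact hAt.const_div_atTop 12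
        · exact (tendsto_natCast_atTop_atTop.comp hyt).const_div_atTop 1
      · exact (tendsto_natCast_atTop_atTop.comp hNt).const_div_atTop (L : ℝ)
    have hexp : Tendsto (fun i => Real.exp (-Af i / 4)) atTop (𝓝 0) := by
      apply Real.tendsto_exp_atBot.comp
      have h1 : Tendsto (fun i => Af i / 4) atTop atTop := hAt.atTop_div_const (by norm_num)
      have h2 := tendsto_neg_atTop_atBot.comp h1
      refine h2.congr fun i => ?_
      simp only [Function.comp]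
      ring
    have hlt : (L : ℝ) * (0 + 0) + 0 < ε / 2 := by
      rw [add_zero, add_zero, mul_zero]
      positivity
    have hev : ∀ᶠ i : ℕ in atTop, μ {ω | τ + ε < ‖avg Θ (χ ω) (Nf i)‖} ≤
        ENNReal.ofReal (144 * L ^ 2 / (c * ε ^ 2) * (1 / (i : ℝ) ^ 2)) := by
      filter_upwards [hyt.eventually_ge_atTop 1, hyt.eventually_ge_atTop L,
        hNt.eventually_ge_atTop 1, hNt.eventually_ge_atTop L, hAt.eventually_gt_atTop 0,
        hexp.eventually_lt_const hκ, herr.eventually_lt_const hlt, hclow,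
        eventually_ge_atTop 1] with i h1 h2 h3 h4 h5 h6 h7 h8 h9
      have hp := prob_avg hχ hΘ hτ h1 h2 h3 h4 h5 (le_refl (Af i)) h6.le
        (t := ε / 2) (by positivity)
      have hi0 : (0 : ℝ) < i := by exact_mod_cast h9
      refine (measure_mono ?_).trans (hp.trans (ENNReal.ofReal_le_ofReal ?_))
      · intro ω hω
        have hω' : τ + ε < ‖avg Θ (χ ω) (Nf i)‖ := hω
        show τ + (L * (12 / Af i + 1 / (yf i : ℝ)) + L / (Nf i : ℝ)) + ε / 2 <
          ‖avg Θ (χ ω) (Nf i)‖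
        linarith
      · have hci : 0 < c * (i : ℝ) ^ 2 := by positivity
        calc 36 * (L : ℝ) ^ 2 / ((yf i : ℕ) * (ε / 2) ^ 2)
            ≤ 36 * (L : ℝ) ^ 2 / ((c * (i : ℝ) ^ 2) * (ε / 2) ^ 2) := by
              apply div_le_div_of_nonneg_left (by positivity) (by positivity)
              exact mul_le_mul_of_nonneg_right h8 (by positivity)
          _ = _ := by field_simp; ring
    obtain ⟨K, hK⟩ := eventually_atTop.1 hev
    have hsum : Summable fun i : ℕ => 144 * (L : ℝ) ^ 2 / (c * ε ^ 2) * (1 / (i : ℝ) ^ 2) :=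
      (Real.summable_one_div_nat_pow.2 (by norm_num)).mul_left _
    have hfin : (∑' i : ℕ, μ {ω | τ + ε < ‖avg Θ (χ ω) (Nf (i + K))‖}) ≠ ⊤ := by
      have h9 : Summable fun i : ℕ =>
          144 * (L : ℝ) ^ 2 / (c * ε ^ 2) * (1 / ((i + K : ℕ) : ℝ) ^ 2) :=
        (summable_nat_add_iff K).2 hsum
      refine ne_top_of_le_ne_top h9.tsum_ofReal_ne_top (ENNReal.tsum_le_tsum fun i => ?_)
      exact hK (i + K) (by omega)
    filter_upwards [ae_eventually_notMem hfin] with ω hω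
    obtain ⟨K', hK'⟩ := eventually_atTop.1 hω
    filter_upwards [eventually_ge_atTop (K + K')] with i hi
    have h10 : ¬ (τ + ε < ‖avg Θ (χ ω) (Nf (i - K + K))‖) := hK' (i - K) (by omega)
    rw [Nat.sub_add_cancel (by omega)] at h10
    exact not_lt.1 h10
  have hall := ae_all_iff.2 key
  filter_upwards [hall] with ω hω ε hε
  obtain ⟨k, hk⟩ := exists_nat_one_div_lt hε
  filter_upwards [hω k] with i hi
  linarith

end Pool.Agent.RSC
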