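import Pool.Agent.RSC.Defs

/-!
# Cho (size 3): the Chowla monomials

PROOF.  `|Θ z| ≤ 1` and measurability are clear (`Finset.measurable_prod`).  Expectation: the
product of the factors with index `s (Fin.succ i)` is a measurable function `W` of the variables
`Z h`, `h ∈ T := image of i ↦ s i.succ`, and `s 0 ∉ T` as `s` is injective; so `Z (s 0)` and `W` are
independent (`iIndepFun.indepFun_finset {s 0} T` and `IndepFun.comp`), hence
`‖∫ Z (s 0) * W‖ = ‖∫ Z (s 0)‖ ‖∫ W‖ ≤ κ * 1`.
-/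

open Filter Topology MeasureTheory ProbabilityTheory ComplexConjugate

namespace Pool.Agent.RSC

/-- the monomial `z(s 0) ∏ i, z(s (i+1)) ^ a i * conj (z(s (i+1))) ^ b i` -/
noncomputable def mono {L k : ℕ} (s : Fin (k + 1) → Fin L) (a b : Fin k → ℕ)
    (z : Fin L → ℂ) : ℂ :=
  z (s 0) * ∏ i : Fin k, (z (s i.succ) ^ a i * conj (z (s i.succ)) ^ b i)

theorem admis_mono {Ω : Type*} [MeasurableSpace Ω] (μ : Measure Ω) [IsProbabilityMeasure μ]
    {L k : ℕ} (s : Fin (k + 1) → Fin L) (hs : Function.Injective s) (a b : Fin k → ℕ)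
    (κ : ℝ) (hκ : 0 ≤ κ) : Admis μ L (mono s a b) κ κ := by
  classical
  have hcont : ∀ i : Fin k, Continuous fun z : Fin L → ℂ =>
      z (s i.succ) ^ a i * conj (z (s i.succ)) ^ b i := fun i =>
    ((continuous_apply _).pow _).mul ((Complex.continuous_conj.comp (continuous_apply _)).pow _)
  have hone : ∀ (i : Fin k) (c : ℂ), ‖c‖ ≤ 1 → ‖c ^ a i * conj c ^ b i‖ ≤ 1 := by
    intro i c hc
    rw [norm_mul, norm_pow, norm_pow, Complex.norm_conj]
    exact mul_le_one₀ (pow_le_one₀ (norm_nonneg _) hc) (by positivity)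
      (pow_le_one₀ (norm_nonneg _) hc)
  have hprod : ∀ z : Fin L → ℂ, (∀ h, ‖z h‖ ≤ 1) →
      ‖∏ i : Fin k, (z (s i.succ) ^ a i * conj (z (s i.succ)) ^ b i)‖ ≤ 1 := by
    intro z hz
    rw [norm_prod]
    exact Finset.prod_le_one (fun i _ => norm_nonneg _) fun i _ => hone i _ (hz _)
  refine ⟨?_, ?_, ?_⟩
  · exact ((continuous_apply _).mul (continuous_finsetProd _ fun i _ => hcont i)).measurable
  · intro z hz
    unfold mono
    rw [norm_mul]
    exact mul_le_one₀ (hz _) (norm_nonneg _) (hprod z hz)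
  · intro Z hZm hZb hind hZe
    set T : Finset (Fin L) := Finset.univ.image fun i : Fin k => s i.succ with hT
    have hmem : ∀ i : Fin k, s i.succ ∈ T := fun i =>
      Finset.mem_image.2 ⟨i, Finset.mem_univ _, rfl⟩
    have hdis : Disjoint ({s 0} : Finset (Fin L)) T := by
      rw [Finset.disjoint_singleton_left, hT, Finset.mem_image]
      rintro ⟨i, -, hi⟩
      exact Fin.succ_ne_zero i (hs hi)
    have h1 := iIndepFun.indepFun_finset ({s 0} : Finset (Fin L)) T hdis hind hZm
    have hφ : Measurable fun v : (({s 0} : Finset (Fin L)) → ℂ) =>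
        v ⟨s 0, Finset.mem_singleton_self _⟩ := measurable_pi_apply _
    have hψ : Measurable fun v : (T → ℂ) =>
        ∏ i : Fin k, (v ⟨s i.succ, hmem i⟩ ^ a i * conj (v ⟨s i.succ, hmem i⟩) ^ b i) := by
      refine (continuous_finsetProd _ fun i _ => ?_).measurable
      exact ((continuous_apply _).pow _).mul
        ((Complex.continuous_conj.comp (continuous_apply _)).pow _)
    have h2 := h1.comp hφ hψ
    have h3 : IndepFun (Z (s 0)) (fun ω => ∏ i : Fin k,
        (Z (s i.succ) ω ^ a i * conj (Z (s i.succ) ω) ^ b i)) μ := h2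
    have hm1 : AEStronglyMeasurable (Z (s 0)) μ := (hZm _).aestronglyMeasurable
    have hm2 : AEStronglyMeasurable (fun ω => ∏ i : Fin k,
        (Z (s i.succ) ω ^ a i * conj (Z (s i.succ) ω) ^ b i)) μ := by
      have h4 : Measurable fun ω => (fun z : Fin L → ℂ => ∏ i : Fin k,
          (z (s i.succ) ^ a i * conj (z (s i.succ)) ^ b i)) (fun h => Z h ω) :=
        (continuous_finsetProd _ fun i _ => hcont i).measurable.comp
          (measurable_pi_lambda _ fun h => hZm h)
      exact h4.aestronglyMeasurable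
    have h4 := h3.integral_fun_mul_eq_mul_integral hm1 hm2
    have h5 : ∫ ω, mono s a b (fun h => Z h ω) ∂μ = (∫ ω, Z (s 0) ω ∂μ) * ∫ ω, ∏ i : Fin k,
        (Z (s i.succ) ω ^ a i * conj (Z (s i.succ) ω) ^ b i) ∂μ := h4
    rw [h5, norm_mul]
    have h6 : ‖∫ ω, ∏ i : Fin k,
        (Z (s i.succ) ω ^ a i * conj (Z (s i.succ) ω) ^ b i) ∂μ‖ ≤ 1 := by
      have h7 := norm_integral_le_of_norm_le_const (μ := μ) (C := 1)
        (f := fun ω => ∏ i : Fin k, (Z (s i.succ) ω ^ a i * conj (Z (s i.succ) ω) ^ b i))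
        (Filter.Eventually.of_forall fun ω => hprod (fun h => Z h ω) fun h => hZb h ω)
      simpa using h7
    calc ‖∫ ω, Z (s 0) ω ∂μ‖ * ‖∫ ω, ∏ i : Fin k,
        (Z (s i.succ) ω ^ a i * conj (Z (s i.succ) ω) ^ b i) ∂μ‖ ≤ κ * 1 :=
          mul_le_mul (hZe _) h6 (norm_nonneg _) hκ
      _ = κ := mul_one κ

end Pool.Agent.RSC
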