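import Pool.Agent.RSC.Defs
import Pool.Agent.Sarnak.Defs

open Filter Topology MeasureTheory ProbabilityTheory ComplexConjugate Sarnak8c

namespace Pool.Agent.RSC

theorem rm_of {Ω : Type*} [MeasurableSpace Ω] {μ : Measure Ω} {χ : Ω → ℤ → ℂ}
    (hmult : ∀ ω, IsMult (χ ω)) (hone : ∀ ω, χ ω 1 = 1) (hbd : ∀ ω n, ‖χ ω n‖ ≤ 1)
    (hmeas : ∀ n : ℕ, Measurable fun ω => χ ω n)
    (hind : iIndepFun (fun (p : Nat.Primes) (ω : Ω) (k : ℕ) => χ ω (((p : ℕ) : ℤ) ^ k)) μ) :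
    RM μ (fun ω (n : ℕ) => χ ω (n : ℤ)) where
  one ω := by simpa using hone ω
  mul ω m n h := by
    have := hmult ω m n (Nat.isCoprime_iff_coprime.2 h)
    simpa using this
  bd ω n := hbd ω n
  meas n := hmeas n
  indep := by
    have : (fun (p : Nat.Primes) (ω : Ω) (k : ℕ) => χ ω (((p : ℕ) ^ k : ℕ) : ℤ)) =
        fun (p : Nat.Primes) (ω : Ω) (k : ℕ) => χ ω (((p : ℕ) : ℤ) ^ k) := by
      funext p ω k
      push_cast
      rfl
    rw [this]
    exact hind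

end Pool.Agent.RSC
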