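import Mathlib

open Filter Topology MeasureTheory ProbabilityTheory ComplexConjugate

namespace Pool.Agent.RSC

variable {Ω : Type*} [MeasurableSpace Ω]

/-- A random multiplicative function on the positive integers, bounded by one, whose values at
the powers of different primes are independent. -/
structure RM (μ : Measure Ω) (χ : Ω → ℕ → ℂ) : Prop where
  one : ∀ ω, χ ω 1 = 1
  mul : ∀ ω (m n : ℕ), m.Coprime n → χ ω (m * n) = χ ω m * χ ω n
  bd : ∀ ω n, ‖χ ω n‖ ≤ 1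
  meas : ∀ n, Measurable (fun ω => χ ω n)
  indep : iIndepFun (fun (p : Nat.Primes) (ω : Ω) (k : ℕ) => χ ω ((p : ℕ) ^ k)) μ

/-- the part of `χ(n)` made of the primes `> y` -/
noncomputable def Yf (χ : Ω → ℕ → ℂ) (y : ℕ) (n : ℕ) (ω : Ω) : ℂ :=
  ∏ p ∈ n.primeFactors.filter (fun p : ℕ => y < p), χ ω (p ^ n.factorization p)

/-- the part of `χ(n)` made of the primes `≤ y` -/
noncomputable def Uf (χ : Ω → ℕ → ℂ) (y : ℕ) (n : ℕ) (ω : Ω) : ℂ :=
  ∏ p ∈ n.primeFactors.filter (fun p : ℕ => ¬ y < p), χ ω (p ^ n.factorization p)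

/-- the variance of `χ(p)` -/
noncomputable def Vr (μ : Measure Ω) (χ : Ω → ℕ → ℂ) (p : ℕ) : ℝ :=
  ∫ ω, ‖χ ω p - ∫ ω', χ ω' p ∂μ‖ ^ 2 ∂μ

/-- the sum of the variances over `p`, for the primes `(log N)^2 < p ≤ N`, tends to infinity -/
def VarDiv (μ : Measure Ω) (χ : Ω → ℕ → ℂ) : Prop :=
  Tendsto (fun N : ℕ => ∑ p ∈ (Finset.range (N + 1)).filter
    (fun p : ℕ => p.Prime ∧ Real.log N ^ 2 < (p : ℝ)), Vr μ χ p / p) atTop atTop

/-- the sigma-algebra generated by the values at the powers of the primes in `S` -/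
noncomputable abbrev Sg (χ : Ω → ℕ → ℂ) (S : Set Nat.Primes) : MeasurableSpace Ω :=
  ⨆ p ∈ S, MeasurableSpace.comap (fun (ω : Ω) (k : ℕ) => χ ω ((p : ℕ) ^ k)) inferInstance

/-- the average over `n ≤ N` of a function `Θ` of the window `(f(n), …, f(n + L - 1))` -/
noncomputable def avg {L : ℕ} (Θ : (Fin L → ℂ) → ℂ) (f : ℕ → ℂ) (N : ℕ) : ℂ :=
  (1 / (N : ℂ)) * ∑ n ∈ Finset.Icc 1 N, Θ (fun h : Fin L => f (n + h))

/-- `Θ` is measurable, bounded by one on the polydisc, and of expectation at most `τ` on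
independent variables with expectations at most `κ` in modulus. -/
structure Admis (μ : Measure Ω) (L : ℕ) (Θ : (Fin L → ℂ) → ℂ) (κ τ : ℝ) : Prop where
  meas : Measurable Θ
  bd : ∀ z : Fin L → ℂ, (∀ h, ‖z h‖ ≤ 1) → ‖Θ z‖ ≤ 1
  exp : ∀ Z : Fin L → Ω → ℂ, (∀ h, Measurable (Z h)) → (∀ h ω, ‖Z h ω‖ ≤ 1) →
    iIndepFun Z μ → (∀ h, ‖∫ ω, Z h ω ∂μ‖ ≤ κ) → ‖∫ ω, Θ (fun h => Z h ω) ∂μ‖ ≤ τ

end Pool.Agent.RSC
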