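import Mathlib

open Filter Topology Set Uniformity Dynamics Complex

namespace Pool.Agent.RSC

/-- The empirical exponential moments of the windows of `f` are sub-Gaussian. -/
def SubG (f : ℕ → ℂ) : Prop :=
  ∀ (L : ℕ) (w : Fin L → ℚ × ℚ) (d : ℝ), 0 < d → ∀ᶠ N : ℕ in atTop,
    (1 / (N : ℝ)) * ∑ n ∈ Finset.Icc 1 N,
      Real.exp (∑ i : Fin L, f (n + i) * (((w i).1 : ℂ) + ((w i).2 : ℂ) * I)).re
      ≤ Real.exp ((1 / 2) * ∑ i, (((w i).1 : ℝ) ^ 2 + ((w i).2 : ℝ) ^ 2)) + d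

lemma detB_rat_near (z : ℂ) {ρ : ℝ} (hρ : 0 < ρ) :
    ∃ q : ℚ × ℚ, ‖z - ((q.1 : ℂ) + (q.2 : ℂ) * I)‖ < ρ := by
  obtain ⟨a, ha⟩ := exists_rat_near z.re (half_pos hρ)
  obtain ⟨b, hb⟩ := exists_rat_near z.im (half_pos hρ)
  refine ⟨(a, b), ?_⟩
  have h1 := Complex.norm_le_abs_re_add_abs_im (z - (((a, b) : ℚ × ℚ).1 + (((a, b) : ℚ × ℚ).2 : ℂ) * I))
  simp at h1
  simp
  linarith

lemma detB_normSq (q : ℚ × ℚ) :
    ((q.1 : ℝ) ^ 2 + (q.2 : ℝ) ^ 2) = ‖((q.1 : ℂ) + (q.2 : ℂ) * I)‖ ^ 2 := by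
  rw [← Complex.normSq_eq_norm_sq, Complex.normSq_apply]
  simp
  ring

lemma SubG.complex {f : ℕ → ℂ} (hf : ∀ n, ‖f n‖ ≤ 1) (h : SubG f) (L : ℕ) (w : Fin L → ℂ)
    (d : ℝ) (hd : 0 < d) : ∀ᶠ N : ℕ in atTop,
    (1 / (N : ℝ)) * ∑ n ∈ Finset.Icc 1 N, Real.exp (∑ i : Fin L, f (n + i) * w i).re
      ≤ Real.exp ((1 / 2) * ∑ i, ‖w i‖ ^ 2) + d := by
  -- continuity
  have hcont : Continuous fun p : (Fin L → ℂ) × ℝ =>
      Real.exp (∑ i, ‖w i - p.1 i‖) * (Real.exp ((1 / 2) * ∑ i, ‖p.1 i‖ ^ 2) + p.2) := by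
    fun_prop
  have hlt : Real.exp (∑ i, ‖w i - w i‖) * (Real.exp ((1 / 2) * ∑ i, ‖w i‖ ^ 2) + 0) <
      Real.exp ((1 / 2) * ∑ i, ‖w i‖ ^ 2) + d := by
    simp [hd]
  have hca : ContinuousAt (fun p : (Fin L → ℂ) × ℝ =>
      Real.exp (∑ i, ‖w i - p.1 i‖) * (Real.exp ((1 / 2) * ∑ i, ‖p.1 i‖ ^ 2) + p.2))
      (w, (0 : ℝ)) := hcont.continuousAt
  have hev : ∀ᶠ p : (Fin L → ℂ) × ℝ in 𝓝 (w, (0 : ℝ)),
      Real.exp (∑ i, ‖w i - p.1 i‖) * (Real.exp ((1 / 2) * ∑ i, ‖p.1 i‖ ^ 2) + p.2) <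
      Real.exp ((1 / 2) * ∑ i, ‖w i‖ ^ 2) + d := hca.eventually_lt continuousAt_const hlt
  obtain ⟨ρ, hρ, hball⟩ := Metric.eventually_nhds_iff.1 hev
  choose q hq using fun i => detB_rat_near (w i) (half_pos hρ)
  have hdist : dist ((fun i => ((q i).1 : ℂ) + ((q i).2 : ℂ) * I), ρ / 2) (w, (0 : ℝ)) < ρ := by
    rw [Prod.dist_eq, max_lt_iff]
    constructor
    · refine lt_of_le_of_lt ((dist_pi_le_iff (half_pos hρ).le).2 fun i => ?_) (half_lt_self hρ)
      rw [dist_comm, dist_eq_norm]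
      exact (hq i).le
    · simp only [Real.dist_eq, sub_zero]
      rw [abs_of_pos (half_pos hρ)]
      linarith
  have hval := hball hdist
  filter_upwards [h L q (ρ / 2) (half_pos hρ)] with N hN
  refine le_trans ?_ hval.le
  have hpt : ∀ n, Real.exp (∑ i : Fin L, f (n + i) * w i).re ≤
      Real.exp (∑ i, ‖w i - (((q i).1 : ℂ) + ((q i).2 : ℂ) * I)‖) *
        Real.exp (∑ i : Fin L, f (n + i) * (((q i).1 : ℂ) + ((q i).2 : ℂ) * I)).re := by
    intro n
    rw [← Real.exp_add]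
    apply Real.exp_le_exp.2
    have h1 : (∑ i : Fin L, f (n + i) * w i) =
        (∑ i : Fin L, f (n + i) * (w i - (((q i).1 : ℂ) + ((q i).2 : ℂ) * I))) +
        ∑ i : Fin L, f (n + i) * (((q i).1 : ℂ) + ((q i).2 : ℂ) * I) := by
      rw [← Finset.sum_add_distrib]
      apply Finset.sum_congr rfl
      intro i _
      ring
    rw [h1, Complex.add_re]
    gcongr
    refine (Complex.re_le_norm _).trans ((norm_sum_le _ _).trans ?_)
    apply Finset.sum_le_sum
    intro i _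
    rw [norm_mul]
    exact mul_le_of_le_one_left (norm_nonneg _) (hf _)
  calc (1 / (N : ℝ)) * ∑ n ∈ Finset.Icc 1 N, Real.exp (∑ i : Fin L, f (n + i) * w i).re
      ≤ (1 / (N : ℝ)) * ∑ n ∈ Finset.Icc 1 N,
        (Real.exp (∑ i, ‖w i - (((q i).1 : ℂ) + ((q i).2 : ℂ) * I)‖) *
        Real.exp (∑ i : Fin L, f (n + i) * (((q i).1 : ℂ) + ((q i).2 : ℂ) * I)).re) := by
        gcongr with n hn
        exact hpt n
    _ = Real.exp (∑ i, ‖w i - (((q i).1 : ℂ) + ((q i).2 : ℂ) * I)‖) *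
        ((1 / (N : ℝ)) * ∑ n ∈ Finset.Icc 1 N,
        Real.exp (∑ i : Fin L, f (n + i) * (((q i).1 : ℂ) + ((q i).2 : ℂ) * I)).re) := by
        rw [← Finset.mul_sum]; ring
    _ ≤ _ := by
        apply mul_le_mul_of_nonneg_left _ (Real.exp_pos _).le
        refine hN.trans (le_of_eq ?_)
        simp only [detB_normSq]

/-- few windows -/
lemma detB_cover {X : Type} [MetricSpace X] {T : X → X} {h : ℝ}
    (hh : coverEntropy T univ ≤ (h : EReal)) {U : Set (X × X)} (hU : U ∈ 𝓤 X) {b : ℝ}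
    (hb : h < b) : ∀ᶠ L : ℕ in atTop, ∃ s : Finset X,
      IsDynCoverOf T univ U L (s : Set X) ∧ (s.card : ℝ) ≤ Real.exp (b * L) := by
  have h1 : coverEntropyEntourage T univ U ≤ (h : EReal) :=
    (coverEntropyEntourage_le_coverEntropy T univ hU).trans hh
  have h2 := (ExpGrowth.expGrowthSup_le_iff.1 h1) (b : EReal) (by exact_mod_cast hb)
  filter_upwards [h2] with L hL
  have h3 : EReal.exp ((b : EReal) * L) = ENNReal.ofReal (Real.exp (b * L)) := by
    rw [← EReal.exp_coe]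
    congr 1
  rw [h3] at hL
  have hfin : coverMincard T univ U L < ⊤ := by
    rw [← ENat.toENNReal_lt_top]
    exact lt_of_le_of_lt hL ENNReal.ofReal_lt_top
  obtain ⟨s, hs, hcard⟩ := (coverMincard_finite_iff T univ U L).1 hfin
  refine ⟨s, hs, ?_⟩
  rw [← hcard] at hL
  have h4 : ((s.card : ℕ∞) : ENNReal) = ENNReal.ofReal (s.card : ℝ) := by
    rw [ENNReal.ofReal_natCast]
    simp
  rw [h4] at hL
  exact (ENNReal.ofReal_le_ofReal_iff (Real.exp_pos _).le).1 hL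

/-- block averaging -/
lemma detB_block (g : ℕ → ℂ) (B : ℝ) (hg : ∀ n, ‖g n‖ ≤ B) (L N : ℕ) :
    ‖(L : ℂ) * ∑ n ∈ Finset.Icc 1 N, g n - ∑ n ∈ Finset.Icc 1 N, ∑ i : Fin L, g (n + i)‖
      ≤ 2 * L ^ 2 * B := by
  have hB : 0 ≤ B := (norm_nonneg _).trans (hg 0)
  have h1 : ∀ i : ℕ, ‖∑ n ∈ Finset.Icc 1 N, g n - ∑ n ∈ Finset.Icc 1 N, g (n + i)‖ ≤ 2 * i * B := by
    intro i
    induction i with
    | zero => simp
    | succ i ih =>
      have h2 : ∑ n ∈ Finset.Icc 1 N, g (n + i) - ∑ n ∈ Finset.Icc 1 N, g (n + (i + 1)) =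
          g (1 + i) - g (N + 1 + i) := by
        clear ih
        induction N with
        | zero => simp
        | succ N ihN =>
          rw [Finset.sum_Icc_succ_top (by omega), Finset.sum_Icc_succ_top (by omega)]
          have e1 : N + 1 + (i + 1) = N + 1 + 1 + i := by omega
          rw [e1]
          linear_combination ihN
      have h3 : ∑ n ∈ Finset.Icc 1 N, g n - ∑ n ∈ Finset.Icc 1 N, g (n + (i + 1)) =
          (∑ n ∈ Finset.Icc 1 N, g n - ∑ n ∈ Finset.Icc 1 N, g (n + i)) +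
          (g (1 + i) - g (N + 1 + i)) := by
        rw [← h2]; ring
      rw [h3]
      refine (norm_add_le _ _).trans ?_
      have h4 := norm_sub_le (g (1 + i)) (g (N + 1 + i))
      have h5 := hg (1 + i)
      have h6 := hg (N + 1 + i)
      push_cast
      linarith
  have h7 : (L : ℂ) * ∑ n ∈ Finset.Icc 1 N, g n - ∑ n ∈ Finset.Icc 1 N, ∑ i : Fin L, g (n + i) =
      ∑ i : Fin L, (∑ n ∈ Finset.Icc 1 N, g n - ∑ n ∈ Finset.Icc 1 N, g (n + i)) := by
    rw [Finset.sum_sub_distrib, Finset.sum_comm]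
    simp
  rw [h7]
  refine (norm_sum_le _ _).trans ?_
  calc ∑ i : Fin L, ‖∑ n ∈ Finset.Icc 1 N, g n - ∑ n ∈ Finset.Icc 1 N, g (n + i)‖
      ≤ ∑ i : Fin L, 2 * (L : ℝ) * B := by
        apply Finset.sum_le_sum
        intro i _
        refine (h1 i).trans ?_
        have : ((i : ℕ) : ℝ) ≤ L := by exact_mod_cast i.2.le
        gcongr
    _ = 2 * L ^ 2 * B := by simp; ring

/-- Jensen -/
lemma detB_jensen (u : ℕ → ℝ) (N : ℕ) (hN : 1 ≤ N) :
    Real.exp ((1 / (N : ℝ)) * ∑ n ∈ Finset.Icc 1 N, u n) ≤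
      (1 / (N : ℝ)) * ∑ n ∈ Finset.Icc 1 N, Real.exp (u n) := by
  set m := (1 / (N : ℝ)) * ∑ n ∈ Finset.Icc 1 N, u n with hm
  have hN' : (0 : ℝ) < N := by exact_mod_cast hN
  have h1 : ∀ n, Real.exp m * (1 + (u n - m)) ≤ Real.exp (u n) := by
    intro n
    have h2 := Real.add_one_le_exp (u n - m)
    calc Real.exp m * (1 + (u n - m)) ≤ Real.exp m * Real.exp (u n - m) := by
          apply mul_le_mul_of_nonneg_left _ (Real.exp_pos _).le
          linarith
      _ = Real.exp (u n) := by rw [← Real.exp_add]; ring_nf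
  have h3 : (1 / (N : ℝ)) * ∑ n ∈ Finset.Icc 1 N, (Real.exp m * (1 + (u n - m))) = Real.exp m := by
    rw [← Finset.mul_sum, Finset.sum_add_distrib, Finset.sum_sub_distrib]
    simp only [Finset.sum_const, Nat.card_Icc, add_tsub_cancel_right, nsmul_eq_mul, mul_one]
    have h4 : ∑ n ∈ Finset.Icc 1 N, u n = N * m := by
      rw [hm]; field_simp
    rw [h4]
    field_simp
    ring
  rw [← h3]
  gcongr with n hn
  exact h1 n

lemma detB_key {f : ℕ → ℂ} (hf : ∀ n, ‖f n‖ ≤ 1) (hS : SubG f)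
    {X : Type} [MetricSpace X] [CompactSpace X] {T : X → X} {h : ℝ}
    (hh : coverEntropy T univ ≤ (h : EReal)) (Φ : C(X, ℂ)) (x : X) (v : ℂ) (hv : ‖v‖ = 1)
    {lam : ℝ} (hlam : 0 < lam) {B : ℝ} (hB : ‖Φ‖ ≤ B) {e : ℝ} (he : 0 < e) :
    ∀ᶠ N : ℕ in atTop, (((1 / (N : ℂ)) * ∑ n ∈ Finset.Icc 1 N, f n * Φ (T^[n] x)) * v).re ≤
      h / lam + lam * B ^ 2 / 2 + e := by
  have hB0 : 0 ≤ B := (norm_nonneg _).trans hB
  have hΦB : ∀ y, ‖Φ y‖ ≤ B := fun y => (Φ.norm_coe_le_norm y).trans hB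
  -- the entourage
  obtain ⟨U, hU, hUe⟩ : ∃ U ∈ 𝓤 X, ∀ a b, (a, b) ∈ U → ‖Φ a - Φ b‖ ≤ e / 4 := by
    have h1 : UniformContinuous Φ := CompactSpace.uniformContinuous_of_continuous Φ.continuous
    refine ⟨{p : X × X | dist (Φ p.1) (Φ p.2) < e / 4}, ?_, ?_⟩
    · exact h1 (Metric.dist_mem_uniformity (by positivity))
    · intro a b hab
      have : dist (Φ a) (Φ b) < e / 4 := hab
      rw [dist_eq_norm] at this
      exact this.le
  have hb : h < h + lam * e / 4 := by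
    have : 0 < lam * e / 4 := by positivity
    linarith
  obtain ⟨L, ⟨s, hs, hcard⟩, hL1, hL2⟩ := ((detB_cover hh hU hb).and
    ((eventually_ge_atTop 1).and (tendsto_natCast_atTop_atTop.eventually_ge_atTop
      (Real.log 2 / (lam * (e / 4)))))).exists
  have hL0 : (0 : ℝ) < L := by exact_mod_cast hL1
  have hlog : Real.log 2 ≤ lam * (e / 4) * L := by
    rw [div_le_iff₀ (by positivity)] at hL2
    linarith
  -- the exponential moments
  have hev : ∀ᶠ N : ℕ in atTop, ∀ y ∈ s, (1 / (N : ℝ)) * ∑ n ∈ Finset.Icc 1 N,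
      Real.exp (∑ i : Fin L, f (n + i) * (lam * v * Φ (T^[(i : ℕ)] y))).re ≤
      Real.exp ((1 / 2) * ∑ i : Fin L, ‖lam * v * Φ (T^[(i : ℕ)] y)‖ ^ 2) + 1 := by
    rw [Finset.eventually_all]
    intro y _
    exact hS.complex hf L (fun i => lam * v * Φ (T^[(i : ℕ)] y)) 1 one_pos
  have hbl : ∀ᶠ N : ℕ in atTop, 2 * (L : ℝ) ^ 2 * B / (L * N) ≤ e / 4 := by
    have h1 : Tendsto (fun N : ℕ => 2 * (L : ℝ) ^ 2 * B / L / N) atTop (𝓝 0) :=
      tendsto_const_div_atTop_nhds_zero_nat _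
    filter_upwards [h1.eventually (ge_mem_nhds (show 0 < e / 4 by positivity))] with N hN
    rw [div_div] at hN
    exact hN
  filter_upwards [hev, hbl, eventually_ge_atTop 1] with N hN1 hN2 hN3
  have hN0 : (0 : ℝ) < N := by exact_mod_cast hN3
  set g : ℕ → ℂ := fun n => f n * Φ (T^[n] x) * v with hg
  have hgB : ∀ n, ‖g n‖ ≤ B := by
    intro n
    rw [hg]
    simp only [norm_mul, hv, mul_one]
    calc ‖f n‖ * ‖Φ (T^[n] x)‖ ≤ 1 * B := mul_le_mul (hf n) (hΦB _) (norm_nonneg _) zero_le_one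
      _ = B := one_mul B
  set u : ℕ → ℝ := fun n => lam * (∑ i : Fin L, g (n + i)).re with hu
  have hJ := detB_jensen u N hN3
  -- pointwise bound
  have hpt : ∀ n, Real.exp (u n) ≤ Real.exp (lam * (e / 4) * L) *
      ∑ y ∈ s, Real.exp (∑ i : Fin L, f (n + i) * (lam * v * Φ (T^[(i : ℕ)] y))).re := by
    intro n
    obtain ⟨y, hy, hxy⟩ := hs (mem_univ (T^[n] x))
    rw [mem_dynEntourage] at hxy
    have h1 : u n ≤ lam * (e / 4) * L +
        (∑ i : Fin L, f (n + i) * (lam * v * Φ (T^[(i : ℕ)] y))).re := by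
      have h2 : u n = (∑ i : Fin L, f (n + i) * (lam * v * (Φ (T^[n + i] x) - Φ (T^[(i : ℕ)] y)))).re +
          (∑ i : Fin L, f (n + i) * (lam * v * Φ (T^[(i : ℕ)] y))).re := by
        rw [← Complex.add_re, ← Finset.sum_add_distrib, hu]
        simp only [hg]
        rw [← Complex.re_ofReal_mul, Finset.mul_sum]
        congr 1
        apply Finset.sum_congr rfl
        intro i _
        ring
      rw [h2]
      gcongr
      refine (Complex.re_le_norm _).trans ((norm_sum_le _ _).trans ?_)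
      have h3 : ∀ i ∈ (Finset.univ : Finset (Fin L)),
          ‖f (n + i) * (lam * v * (Φ (T^[n + i] x) - Φ (T^[(i : ℕ)] y)))‖ ≤ lam * (e / 4) := by
        intro i _
        have h4 : ‖Φ (T^[n + i] x) - Φ (T^[(i : ℕ)] y)‖ ≤ e / 4 := by
          have h5 := hxy i i.2
          have h6 := hUe _ _ h5
          rwa [← Function.iterate_add_apply, add_comm] at h6
        rw [norm_mul, norm_mul, norm_mul, hv, Complex.norm_real, Real.norm_of_nonneg hlam.le]
        have h7 : lam * 1 * ‖Φ (T^[n + i] x) - Φ (T^[(i : ℕ)] y)‖ ≤ lam * (e / 4) := by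
          rw [mul_one]
          exact mul_le_mul_of_nonneg_left h4 hlam.le
        calc ‖f (n + i)‖ * (lam * 1 * ‖Φ (T^[n + i] x) - Φ (T^[(i : ℕ)] y)‖)
            ≤ 1 * (lam * (e / 4)) :=
              mul_le_mul (hf _) h7 (by positivity) zero_le_one
          _ = _ := one_mul _
      refine (Finset.sum_le_card_nsmul _ _ _ h3).trans (le_of_eq ?_)
      simp
      ring
    calc Real.exp (u n) ≤ Real.exp (lam * (e / 4) * L +
        (∑ i : Fin L, f (n + i) * (lam * v * Φ (T^[(i : ℕ)] y))).re) := Real.exp_le_exp.2 h1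
      _ = Real.exp (lam * (e / 4) * L) *
        Real.exp (∑ i : Fin L, f (n + i) * (lam * v * Φ (T^[(i : ℕ)] y))).re := Real.exp_add _ _
      _ ≤ _ := by
        apply mul_le_mul_of_nonneg_left _ (Real.exp_pos _).le
        exact Finset.single_le_sum (f := fun y => Real.exp (∑ i : Fin L,
          f (n + i) * (lam * v * Φ (T^[(i : ℕ)] y))).re) (fun y _ => (Real.exp_pos _).le) hy
  -- sum
  have hsum : (1 / (N : ℝ)) * ∑ n ∈ Finset.Icc 1 N, Real.exp (u n) ≤
      Real.exp (lam * (e / 4) * L) * (Real.exp ((h + lam * e / 4) * L) *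
        (Real.exp (Real.log 2) * Real.exp (L * (lam ^ 2 * B ^ 2 / 2)))) := by
    calc (1 / (N : ℝ)) * ∑ n ∈ Finset.Icc 1 N, Real.exp (u n)
        ≤ (1 / (N : ℝ)) * ∑ n ∈ Finset.Icc 1 N, (Real.exp (lam * (e / 4) * L) *
          ∑ y ∈ s, Real.exp (∑ i : Fin L, f (n + i) * (lam * v * Φ (T^[(i : ℕ)] y))).re) := by
          gcongr with n hn
          exact hpt n
      _ = Real.exp (lam * (e / 4) * L) * ∑ y ∈ s, ((1 / (N : ℝ)) * ∑ n ∈ Finset.Icc 1 N,
          Real.exp (∑ i : Fin L, f (n + i) * (lam * v * Φ (T^[(i : ℕ)] y))).re) := by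
          rw [← Finset.mul_sum, Finset.sum_comm, ← Finset.mul_sum]
          ring
      _ ≤ Real.exp (lam * (e / 4) * L) * (Real.exp ((h + lam * e / 4) * L) *
        (Real.exp (Real.log 2) * Real.exp (L * (lam ^ 2 * B ^ 2 / 2)))) := by
          apply mul_le_mul_of_nonneg_left _ (Real.exp_pos _).le
          have h8 : ∀ y ∈ s, (1 / (N : ℝ)) * ∑ n ∈ Finset.Icc 1 N,
              Real.exp (∑ i : Fin L, f (n + i) * (lam * v * Φ (T^[(i : ℕ)] y))).re ≤
              Real.exp (Real.log 2) * Real.exp (L * (lam ^ 2 * B ^ 2 / 2)) := by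
            intro y hy
            refine (hN1 y hy).trans ?_
            rw [Real.exp_log (by norm_num)]
            have h9 : (1 / 2) * ∑ i : Fin L, ‖lam * v * Φ (T^[(i : ℕ)] y)‖ ^ 2 ≤
                L * (lam ^ 2 * B ^ 2 / 2) := by
              have h10 : ∀ i ∈ (Finset.univ : Finset (Fin L)),
                  ‖lam * v * Φ (T^[(i : ℕ)] y)‖ ^ 2 ≤ lam ^ 2 * B ^ 2 := by
                intro i _
                rw [norm_mul, norm_mul, hv, Complex.norm_real, Real.norm_of_nonneg hlam.le, mul_one,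
                  mul_pow]
                have := hΦB (T^[(i : ℕ)] y)
                gcongr
              have h11 := Finset.sum_le_card_nsmul _ _ _ h10
              simp only [Finset.card_univ, Fintype.card_fin, nsmul_eq_mul] at h11
              linarith
            have h12 := Real.exp_le_exp.2 h9
            have h13 : 1 ≤ Real.exp (L * (lam ^ 2 * B ^ 2 / 2)) := Real.one_le_exp (by positivity)
            linarith
          refine (Finset.sum_le_card_nsmul _ _ _ h8).trans ?_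
          rw [nsmul_eq_mul]
          exact mul_le_mul_of_nonneg_right hcard (by positivity)
  have h14 : (1 / (N : ℝ)) * ∑ n ∈ Finset.Icc 1 N, u n ≤ lam * (e / 4) * L +
      ((h + lam * e / 4) * L + (Real.log 2 + L * (lam ^ 2 * B ^ 2 / 2))) := by
    have := hJ.trans hsum
    rw [← Real.exp_add, ← Real.exp_add, ← Real.exp_add] at this
    exact Real.exp_le_exp.1 this
  have h15 : (1 / (N : ℝ)) * ∑ n ∈ Finset.Icc 1 N, u n =
      lam * ((1 / (N : ℝ)) * (∑ n ∈ Finset.Icc 1 N, ∑ i : Fin L, g (n + i)).re) := by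
    rw [Complex.re_sum, hu]
    simp only
    rw [← Finset.mul_sum]
    ring
  have h16 := detB_block g B hgB L N
  have h17 : (((1 / (N : ℂ)) * ∑ n ∈ Finset.Icc 1 N, f n * Φ (T^[n] x)) * v) =
      ((1 / (N : ℝ) : ℝ) : ℂ) * ∑ n ∈ Finset.Icc 1 N, g n := by
    rw [hg]
    simp only
    rw [← Finset.sum_mul]
    push_cast
    ring
  rw [h17, Complex.re_ofReal_mul]
  have h18 : (L : ℝ) * (∑ n ∈ Finset.Icc 1 N, g n).re -
      (∑ n ∈ Finset.Icc 1 N, ∑ i : Fin L, g (n + i)).re ≤ 2 * L ^ 2 * B := by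
    refine le_trans ?_ h16
    refine le_trans (le_of_eq ?_) (Complex.re_le_norm _)
    rw [Complex.sub_re]
    congr 1
    simp
  rw [h15] at h14
  set A := (∑ n ∈ Finset.Icc 1 N, g n).re
  set D := (∑ n ∈ Finset.Icc 1 N, ∑ i : Fin L, g (n + i)).re
  -- lam * (1/N) * D ≤ L * lam * (e/4 + h/lam + e/4 + e/4 + lam B^2/2)
  have h19 : (1 / (N : ℝ)) * D ≤ L * (e / 4 + (h / lam + e / 4) + e / 4 + lam * B ^ 2 / 2) := by
    have h20 : lam * ((1 / (N : ℝ)) * D) ≤
        lam * (L * (e / 4 + (h / lam + e / 4) + e / 4 + lam * B ^ 2 / 2)) := by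
      refine h14.trans ?_
      have : lam * (L * (e / 4 + (h / lam + e / 4) + e / 4 + lam * B ^ 2 / 2)) =
          lam * (e / 4) * L + ((h + lam * e / 4) * L + (lam * (e / 4) * L +
            L * (lam ^ 2 * B ^ 2 / 2))) := by
        field_simp
        ring
      rw [this]
      linarith
    exact le_of_mul_le_mul_left h20 hlam
  have h21 : (1 / (N : ℝ)) * A ≤ (1 / L) * ((1 / (N : ℝ)) * D) + 2 * (L : ℝ) ^ 2 * B / (L * N) := by
    have h22 : A ≤ (1 / L) * D + 2 * L ^ 2 * B / L := by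
      have h23 : (L : ℝ) * A ≤ D + 2 * L ^ 2 * B := by linarith
      calc A = (L * A) / L := by field_simp
        _ ≤ (D + 2 * L ^ 2 * B) / L := by gcongr
        _ = _ := by ring
    calc (1 / (N : ℝ)) * A ≤ (1 / (N : ℝ)) * ((1 / L) * D + 2 * L ^ 2 * B / L) := by gcongr
      _ = _ := by field_simp
  have h24 : (1 / (L : ℝ)) * ((1 / (N : ℝ)) * D) ≤
      e / 4 + (h / lam + e / 4) + e / 4 + lam * B ^ 2 / 2 := by
    calc (1 / (L : ℝ)) * ((1 / (N : ℝ)) * D) ≤
        (1 / (L : ℝ)) * (L * (e / 4 + (h / lam + e / 4) + e / 4 + lam * B ^ 2 / 2)) := by gcongr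
      _ = _ := by field_simp
  linarith

lemma detB_dir (z : ℕ → ℂ) (B r : ℝ) (hr : 0 ≤ r) (hz : ∀ N, ‖z N‖ ≤ B)
    (h : ∀ v : ℂ, ‖v‖ = 1 → ∀ e : ℝ, 0 < e → ∀ᶠ N in atTop, (z N * v).re ≤ r + e) (e : ℝ)
    (he : 0 < e) : ∀ᶠ N in atTop, ‖z N‖ ≤ r + e := by
  by_contra hcon
  rw [Filter.not_eventually] at hcon
  have hcomp : IsCompact (Metric.closedBall (0 : ℂ) B ∩ {w : ℂ | r + e ≤ ‖w‖}) := by
    apply (isCompact_closedBall (0 : ℂ) B).inter_right
    exact isClosed_le continuous_const continuous_norm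
  have hfr : ∃ᶠ N in atTop, z N ∈ Metric.closedBall (0 : ℂ) B ∩ {w : ℂ | r + e ≤ ‖w‖} := by
    refine hcon.mono fun N hN => ⟨?_, ?_⟩
    · simpa using hz N
    · exact (not_le.1 hN).le
  obtain ⟨a, ha, hcl⟩ := hcomp.exists_mapClusterPt_of_frequently hfr
  have ha1 : r + e ≤ ‖a‖ := ha.2
  have ha0 : 0 < ‖a‖ := by linarith
  have hane : a ≠ 0 := norm_pos_iff.1 ha0
  set v : ℂ := (starRingEnd ℂ) a / ‖a‖ with hv
  have hv1 : ‖v‖ = 1 := by
    rw [hv, norm_div, Complex.norm_conj, Complex.norm_real, norm_norm, div_self ha0.ne']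
  have hav : (a * v).re = ‖a‖ := by
    have : a * v = (‖a‖ : ℂ) := by
      rw [hv, mul_div_assoc', Complex.mul_conj, Complex.normSq_eq_norm_sq]
      push_cast
      field_simp
    rw [this, Complex.ofReal_re]
  have hnb : {w : ℂ | r + e / 2 < (w * v).re} ∈ 𝓝 a := by
    apply (isOpen_lt continuous_const (by fun_prop)).mem_nhds
    show r + e / 2 < (a * v).re
    rw [hav]
    linarith
  have hfr2 := hcl.frequently hnb
  have hev := h v hv1 (e / 2) (by positivity)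
  obtain ⟨N, hN1, hN2⟩ := (hfr2.and_eventually hev).exists
  have : r + e / 2 < (z N * v).re := hN1
  linarith

/-- The deterministic step: sub-Gaussian exponential moments of the windows bound the correlation
with every topological system by its entropy. -/
theorem detB_main {f : ℕ → ℂ} (hf : ∀ n, ‖f n‖ ≤ 1) (hS : SubG f)
    (X : Type) [MetricSpace X] [CompactSpace X] (T : X → X) (h : ℝ) (h0 : 0 ≤ h)
    (hh : coverEntropy T univ ≤ (h : EReal)) (Φ : C(X, ℂ)) (x : X) (e : ℝ) (he : 0 < e) :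
    ∀ᶠ N : ℕ in atTop, ‖(1 / (N : ℂ)) * ∑ n ∈ Finset.Icc 1 N, f n * Φ (T^[n] x)‖ ≤
      Real.sqrt (2 * h) * ‖Φ‖ + e := by
  have hΦ : ∀ y, ‖Φ y‖ ≤ ‖Φ‖ := fun y => Φ.norm_coe_le_norm y
  apply detB_dir _ ‖Φ‖ _ (by positivity) ?_ ?_ e he
  · intro N
    rcases Nat.eq_zero_or_pos N with rfl | hN
    · simp
    have hN0 : (0 : ℝ) < N := by exact_mod_cast hN
    rw [norm_mul, norm_div, norm_one, Complex.norm_natCast]
    have h1 : ‖∑ n ∈ Finset.Icc 1 N, f n * Φ (T^[n] x)‖ ≤ N * ‖Φ‖ := by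
      refine (norm_sum_le _ _).trans ?_
      have h2 : ∀ n ∈ Finset.Icc 1 N, ‖f n * Φ (T^[n] x)‖ ≤ ‖Φ‖ := by
        intro n _
        rw [norm_mul]
        calc ‖f n‖ * ‖Φ (T^[n] x)‖ ≤ 1 * ‖Φ‖ :=
              mul_le_mul (hf n) (hΦ _) (norm_nonneg _) zero_le_one
          _ = _ := one_mul _
      refine (Finset.sum_le_card_nsmul _ _ _ h2).trans (le_of_eq ?_)
      simp
    calc 1 / (N : ℝ) * ‖∑ n ∈ Finset.Icc 1 N, f n * Φ (T^[n] x)‖ ≤ 1 / (N : ℝ) * (N * ‖Φ‖) := by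
          gcongr
      _ = ‖Φ‖ := by field_simp
  · intro v hv e he
    -- continuity in the perturbation
    have hc : Continuous fun t : ℝ => Real.sqrt (2 * (h + t)) * (‖Φ‖ + t) := by fun_prop
    have hlt : Real.sqrt (2 * (h + 0)) * (‖Φ‖ + 0) < Real.sqrt (2 * h) * ‖Φ‖ + e / 2 := by
      simp only [add_zero]
      linarith
    have hca : ContinuousAt (fun t : ℝ => Real.sqrt (2 * (h + t)) * (‖Φ‖ + t)) 0 :=
      hc.continuousAt
    have hev := hca.eventually_lt continuousAt_const hlt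
    obtain ⟨ρ, hρ, hball⟩ := Metric.eventually_nhds_iff.1 hev
    set t := ρ / 2 with ht
    have ht0 : 0 < t := by positivity
    have hval := hball (y := t) (by
      rw [Real.dist_eq, sub_zero, abs_of_pos ht0]
      linarith)
    have hh' : coverEntropy T univ ≤ ((h + t : ℝ) : EReal) :=
      hh.trans (by exact_mod_cast (by linarith : h ≤ h + t))
    have hpos1 : 0 < h + t := by linarith
    have hpos2 : 0 < ‖Φ‖ + t := by positivity
    set lam := Real.sqrt (2 * (h + t)) / (‖Φ‖ + t) with hlamd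
    have hsq : 0 < Real.sqrt (2 * (h + t)) := Real.sqrt_pos.2 (by positivity)
    have hlam : 0 < lam := div_pos hsq hpos2
    have hk := detB_key hf hS hh' Φ x v hv hlam (B := ‖Φ‖ + t) (by linarith)
      (e := e / 2) (by positivity)
    filter_upwards [hk] with N hN
    refine hN.trans ?_
    have h3 : (h + t) / lam + lam * (‖Φ‖ + t) ^ 2 / 2 =
        Real.sqrt (2 * (h + t)) * (‖Φ‖ + t) := by
      have h4 : Real.sqrt (2 * (h + t)) ^ 2 = 2 * (h + t) := Real.sq_sqrt (by positivity)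
      have h5 : h + t = Real.sqrt (2 * (h + t)) ^ 2 / 2 := by rw [h4]; ring
      rw [hlamd]
      set S := Real.sqrt (2 * (h + t)) with hS
      rw [h5]
      field_simp
      ring
    rw [h3]
    linarith

end Pool.Agent.RSC
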