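import Pool.Agent.RSC.Defs

/-!
# Fact (size 2)

PROOFS.
* `uf_mul_yf`: `Nat.multiplicative_factorization (χ ω) (hχ.mul ω _ _) (hχ.one ω)` gives
  `χ ω n = n.factorization.prod fun p k => χ ω (p ^ k) = ∏ p ∈ n.primeFactors, χ ω (p ^ fact p)`;
  split with `Finset.prod_filter_mul_prod_filter_not` (and `mul_comm`).
* norms: `norm_prod`, `Finset.prod_le_one`.  Measurability: `Finset.measurable_prod`, `hχ.meas`.
-/

open Filter Topology MeasureTheory ProbabilityTheory ComplexConjugate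

namespace Pool.Agent.RSC

variable {Ω : Type*} [MeasurableSpace Ω] {μ : Measure Ω} {χ : Ω → ℕ → ℂ}

theorem uf_mul_yf (hχ : RM μ χ) (y : ℕ) {n : ℕ} (hn : 1 ≤ n) (ω : Ω) :
    χ ω n = Uf χ y n ω * Yf χ y n ω := by
  have h := Nat.multiplicative_factorization (χ ω) (fun a b hab => hχ.mul ω a b hab) (hχ.one ω)
    (n := n) (by omega)
  rw [h]
  unfold Uf Yf
  rw [mul_comm]
  exact (Finset.prod_filter_mul_prod_filter_not n.primeFactors (fun p : ℕ => y < p)
    (fun p => χ ω (p ^ n.factorization p))).symm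

theorem norm_uf (hχ : RM μ χ) (y n : ℕ) (ω : Ω) : ‖Uf χ y n ω‖ ≤ 1 := by
  unfold Uf
  rw [norm_prod]
  exact Finset.prod_le_one (fun _ _ => norm_nonneg _) fun _ _ => hχ.bd ω _

theorem norm_yf (hχ : RM μ χ) (y n : ℕ) (ω : Ω) : ‖Yf χ y n ω‖ ≤ 1 := by
  unfold Yf
  rw [norm_prod]
  exact Finset.prod_le_one (fun _ _ => norm_nonneg _) fun _ _ => hχ.bd ω _

theorem measurable_uf (hχ : RM μ χ) (y n : ℕ) : Measurable (Uf χ y n) := by
  unfold Uf
  exact Finset.measurable_fun_prod _ fun _ _ => hχ.meas _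

theorem measurable_yf (hχ : RM μ χ) (y n : ℕ) : Measurable (Yf χ y n) := by
  unfold Yf
  exact Finset.measurable_fun_prod _ fun _ _ => hχ.meas _

end Pool.Agent.RSC
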