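import Pool.Agent.RSC.Sig
import Pool.Agent.RSC.Fact

/-!
# Expc (size 4): expectations

PROOFS.
* `vr_nonneg`: `integral_nonneg`.
* `vr_le`: with `e = ∫ χ ω p`: `‖χ - e‖² = ‖χ‖² - 2 re (χ conj e) + ‖e‖²`, integrate (everything
  is bounded, hence integrable): `Vr = ∫ ‖χ‖² - ‖e‖² ≤ 1 - ‖e‖²`.
* `vr_le_one`: from `vr_le`.
* `norm_integral_le`: `‖e‖² ≤ 1 - Vr ≤ exp (-Vr)` (`Real.add_one_le_exp`), so
  `‖e‖ ≤ exp (-Vr / 2)` (`abs_le_of_sq_le_sq`, `Real.exp_add` / `Real.exp_nat_mul`).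
* `norm_integral_yf`: the factors `G p ω = χ ω (p ^ m.factorization p)`, `p` prime, are
  independent (`hχ.indep.comp` with the evaluations at `m.factorization p`), so the integral of the
  product over `F := m.primeFactors.filter (y < ·)` is the product of the integrals (Mathlib:
  search `iIndepFun.integral_prod_eq_prod_integral` / `integral_fun_prod_eq_prod_integral`; or
  induction over `F` with `iIndepFun.indepFun_finsetProd_of_notMem` and
  `IndepFun.integral_mul_eq_mul_integral`; pass from a finset of natural primes to `Nat.Primes` by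
  `Finset.attach` or a map).  The integrals are at most `1` in modulus, and for `p ∈ F` with
  `¬ p ^ 2 ∣ m` the exponent `m.factorization p` is `1` and the modulus is at most
  `exp (-Vr p / 2)` by `norm_integral_le`.
-/

open Filter Topology MeasureTheory ProbabilityTheory ComplexConjugate

namespace Pool.Agent.RSC

variable {Ω : Type*} [MeasurableSpace Ω] {μ : Measure Ω} {χ : Ω → ℕ → ℂ}

private theorem Expc_int [IsProbabilityMeasure μ] (hχ : RM μ χ) (n : ℕ) :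
    Integrable (fun ω => χ ω n) μ :=
  Integrable.of_bound (hχ.meas n).aestronglyMeasurable 1 (ae_of_all _ fun ω => hχ.bd ω n)

theorem vr_nonneg (μ : Measure Ω) (χ : Ω → ℕ → ℂ) (p : ℕ) : 0 ≤ Vr μ χ p :=
  integral_nonneg fun ω => by positivity

theorem vr_le [IsProbabilityMeasure μ] (hχ : RM μ χ) (p : ℕ) :
    Vr μ χ p ≤ 1 - ‖∫ ω, χ ω p ∂μ‖ ^ 2 := by
  set c : ℂ := ∫ ω, χ ω p ∂μ with hc
  have hI := Expc_int hχ p
  have h1 : ∀ ω, ‖χ ω p - c‖ ^ 2 = ‖χ ω p‖ ^ 2 - 2 * (χ ω p * conj c).re + ‖c‖ ^ 2 := by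
    intro ω
    rw [← Complex.normSq_eq_norm_sq, ← Complex.normSq_eq_norm_sq, ← Complex.normSq_eq_norm_sq,
      Complex.normSq_sub]
    ring
  have hJ : Integrable (fun ω => χ ω p * conj c) μ := hI.mul_const _
  have hJr : Integrable (fun ω => (χ ω p * conj c).re) μ := hJ.re
  have hS : Integrable (fun ω => ‖χ ω p‖ ^ 2) μ := by
    refine Integrable.of_bound ((hχ.meas p).norm.pow_const 2).aestronglyMeasurable 1
      (ae_of_all _ fun ω => ?_)
    rw [Real.norm_of_nonneg (by positivity)]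
    exact pow_le_one₀ (norm_nonneg _) (hχ.bd ω p)
  have h2 : Vr μ χ p = (∫ ω, ‖χ ω p‖ ^ 2 ∂μ) - 2 * (∫ ω, (χ ω p * conj c).re ∂μ) + ‖c‖ ^ 2 := by
    unfold Vr
    rw [← hc]
    simp only [h1]
    have h7 : Integrable (fun ω => ‖χ ω p‖ ^ 2 - 2 * (χ ω p * conj c).re) μ :=
      hS.sub (hJr.const_mul 2)
    have h8 : ∫ ω, (‖χ ω p‖ ^ 2 - 2 * (χ ω p * conj c).re + ‖c‖ ^ 2) ∂μ
        = (∫ ω, (‖χ ω p‖ ^ 2 - 2 * (χ ω p * conj c).re) ∂μ) + ∫ _ω : Ω, ‖c‖ ^ 2 ∂μ :=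
      integral_add h7 (integrable_const _)
    have h9 : ∫ ω, (‖χ ω p‖ ^ 2 - 2 * (χ ω p * conj c).re) ∂μ
        = (∫ ω, ‖χ ω p‖ ^ 2 ∂μ) - ∫ ω, 2 * (χ ω p * conj c).re ∂μ :=
      integral_sub hS (hJr.const_mul 2)
    rw [h8, h9, integral_const_mul]
    simp
  have h3 : ∫ ω, (χ ω p * conj c).re ∂μ = ‖c‖ ^ 2 := by
    have h4 : ∫ ω, (χ ω p * conj c).re ∂μ = (∫ ω, χ ω p * conj c ∂μ).re :=
      integral_re hJ
    rw [h4, integral_mul_const, ← hc, Complex.mul_conj, Complex.ofReal_re,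
      Complex.normSq_eq_norm_sq]
  have h5 : ∫ ω, ‖χ ω p‖ ^ 2 ∂μ ≤ 1 := by
    have h6 : ∫ ω, ‖χ ω p‖ ^ 2 ∂μ ≤ ∫ _ω : Ω, (1 : ℝ) ∂μ := by
      refine integral_mono hS (integrable_const _) fun ω => ?_
      exact pow_le_one₀ (norm_nonneg _) (hχ.bd ω p)
    simpa using h6
  rw [h2, h3]
  linarith

theorem vr_le_one [IsProbabilityMeasure μ] (hχ : RM μ χ) (p : ℕ) : Vr μ χ p ≤ 1 := by
  have h := vr_le hχ p
  have h2 : 0 ≤ ‖∫ ω, χ ω p ∂μ‖ ^ 2 := by positivity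
  linarith

theorem norm_integral_le [IsProbabilityMeasure μ] (hχ : RM μ χ) (p : ℕ) :
    ‖∫ ω, χ ω p ∂μ‖ ≤ Real.exp (-Vr μ χ p / 2) := by
  have h := vr_le hχ p
  have h1 := Real.add_one_le_exp (-Vr μ χ p)
  have h2 : ‖∫ ω, χ ω p ∂μ‖ ^ 2 ≤ Real.exp (-Vr μ χ p / 2) ^ 2 := by
    rw [← Real.exp_nat_mul]
    have h3 : ((2 : ℕ) : ℝ) * (-Vr μ χ p / 2) = -Vr μ χ p := by
      push_cast
      ring
    rw [h3]
    linarith
  exact (pow_le_pow_iff_left₀ (norm_nonneg _) (Real.exp_pos _).le two_ne_zero).1 h2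

private theorem Expc_le_one [IsProbabilityMeasure μ] (hχ : RM μ χ) (n : ℕ) :
    ‖∫ ω, χ ω n ∂μ‖ ≤ 1 := by
  have h := norm_integral_le_of_norm_le_const (μ := μ) (f := fun ω => χ ω n) (C := 1)
    (ae_of_all _ fun ω => hχ.bd ω n)
  simpa using h

/-- the expectation of a product over a finite set of primes -/
private theorem Expc_prod [IsProbabilityMeasure μ] (hχ : RM μ χ) (F : Finset ℕ)
    (hF : ∀ p ∈ F, p.Prime) (k : ℕ → ℕ) :
    ∫ ω, ∏ p ∈ F, χ ω (p ^ k p) ∂μ = ∏ p ∈ F, ∫ ω, χ ω (p ^ k p) ∂μ := by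
  classical
  have hinj : Function.Injective (fun q : {x // x ∈ F} => (⟨q.1, hF q.1 q.2⟩ : Nat.Primes)) := by
    intro a b hab
    exact Subtype.ext (congrArg (fun p : Nat.Primes => (p : ℕ)) hab)
  have h1 : iIndepFun (fun (q : {x // x ∈ F}) (ω : Ω) (j : ℕ) => χ ω ((q : ℕ) ^ j)) μ :=
    hχ.indep.precomp hinj
  have h2 : iIndepFun (fun (q : {x // x ∈ F}) (ω : Ω) => χ ω ((q : ℕ) ^ k q)) μ :=
    h1.comp (fun q (f : ℕ → ℂ) => f (k q)) fun q => measurable_pi_apply _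
  have h3 := h2.integral_fun_prod_eq_prod_integral (𝕜 := ℂ)
    (fun q => (hχ.meas _).aestronglyMeasurable)
  have h4 : ∀ ω, ∏ p ∈ F, χ ω (p ^ k p) = ∏ q : {x // x ∈ F}, χ ω ((q : ℕ) ^ k q) := fun ω =>
    (Finset.prod_coe_sort F (fun p => χ ω (p ^ k p))).symm
  have h5 : ∏ p ∈ F, ∫ ω, χ ω (p ^ k p) ∂μ
      = ∏ q : {x // x ∈ F}, ∫ ω, χ ω ((q : ℕ) ^ k q) ∂μ :=
    (Finset.prod_coe_sort F (fun p => ∫ ω, χ ω (p ^ k p) ∂μ)).symm
  simp only [h4]
  rw [h3, h5]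

theorem norm_integral_yf [IsProbabilityMeasure μ] (hχ : RM μ χ) (y m : ℕ) :
    ‖∫ ω, Yf χ y m ω ∂μ‖ ≤ Real.exp (-(∑ p ∈ m.primeFactors.filter
      (fun p : ℕ => y < p ∧ ¬ p ^ 2 ∣ m), Vr μ χ p) / 2) := by
  classical
  unfold Yf
  rw [Expc_prod hχ _ (fun p hp => Nat.prime_of_mem_primeFactors (Finset.mem_filter.1 hp).1)
    (fun p => m.factorization p), norm_prod]
  have hsub : m.primeFactors.filter (fun p : ℕ => y < p ∧ ¬ p ^ 2 ∣ m)
      ⊆ m.primeFactors.filter (fun p : ℕ => y < p) := by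
    intro p hp
    rw [Finset.mem_filter] at hp ⊢
    exact ⟨hp.1, hp.2.1⟩
  have h1 : ∏ p ∈ m.primeFactors.filter (fun p : ℕ => y < p),
        ‖∫ ω, χ ω (p ^ m.factorization p) ∂μ‖
      ≤ ∏ p ∈ m.primeFactors.filter (fun p : ℕ => y < p ∧ ¬ p ^ 2 ∣ m),
        ‖∫ ω, χ ω (p ^ m.factorization p) ∂μ‖ := by
    rw [← Finset.prod_sdiff hsub]
    refine mul_le_of_le_one_left (Finset.prod_nonneg fun _ _ => norm_nonneg _) ?_
    exact Finset.prod_le_one (fun _ _ => norm_nonneg _) fun p _ => Expc_le_one hχ _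
  refine h1.trans ?_
  have h2 : Real.exp (-(∑ p ∈ m.primeFactors.filter
      (fun p : ℕ => y < p ∧ ¬ p ^ 2 ∣ m), Vr μ χ p) / 2)
      = ∏ p ∈ m.primeFactors.filter (fun p : ℕ => y < p ∧ ¬ p ^ 2 ∣ m),
        Real.exp (-Vr μ χ p / 2) := by
    rw [← Real.exp_sum, ← Finset.sum_neg_distrib, Finset.sum_div]
  rw [h2]
  refine Finset.prod_le_prod (fun _ _ => norm_nonneg _) fun p hp => ?_
  rw [Finset.mem_filter] at hp
  obtain ⟨hpm, _, hp2⟩ := hp
  have hpp := Nat.prime_of_mem_primeFactors hpm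
  have hm0 : m ≠ 0 := by
    rintro rfl
    simp at hpm
  have h3 : m.factorization p = 1 := by
    have h4 : 1 ≤ m.factorization p :=
      (hpp.dvd_iff_one_le_factorization hm0).1 (Nat.dvd_of_mem_primeFactors hpm)
    have h5 : ¬ 2 ≤ m.factorization p := fun h => hp2 ((hpp.pow_dvd_iff_le_factorization hm0).2 h)
    omega
  rw [h3, pow_one]
  exact norm_integral_le hχ p

end Pool.Agent.RSC
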