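import Pool.Agent.RSC.Defs

/-!
# Hoef (size 3): the exponential of a linear form

PROOF.  Let `B = exp (∑ ‖w i‖)`.  Measurable, and for `‖z i‖ ≤ 1`: `re (∑ z i * w i) ≤ ∑ ‖w i‖`.
Expectation: `Re (Z i * w i) =: X i ∈ [-‖w i‖, ‖w i‖]`, `∫ X i = re ((∫ Z i) * w i) ≤ κ ‖w i‖`, and by
Hoeffding's lemma (`hasSubgaussianMGF_of_mem_Icc`, parameter `(2‖w i‖/2)² = ‖w i‖²`)
`∫ exp (X i) ≤ exp (κ ‖w i‖ + ‖w i‖² / 2)`; the variables `exp (X i)` are independent
(`iIndepFun.comp`), so the integral of the product is the product of the integrals (or use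
`HasSubgaussianMGF.sum_of_iIndepFun` for the `X i - ∫ X i` and `HasSubgaussianMGF.mgf_le` at
`t = 1`).
-/

open Filter Topology MeasureTheory ProbabilityTheory ComplexConjugate

namespace Pool.Agent.RSC

private lemma hoef_one {Ω : Type*} [MeasurableSpace Ω] {μ : Measure Ω} [IsProbabilityMeasure μ]
    (Z : Ω → ℂ) (hZ : Measurable Z) (hb : ∀ ω, ‖Z ω‖ ≤ 1) (w : ℂ) :
    ∫ ω, Real.exp (Z ω * w).re ∂μ ≤ Real.exp (‖∫ ω, Z ω ∂μ‖ * ‖w‖ + ‖w‖ ^ 2 / 2) := by
  have hm : AEMeasurable (fun ω => (Z ω * w).re) μ := by fun_prop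
  have hIcc : ∀ᵐ ω ∂μ, (Z ω * w).re ∈ Set.Icc (-‖w‖) ‖w‖ := by
    refine Filter.Eventually.of_forall fun ω => ?_
    have h1 : |(Z ω * w).re| ≤ ‖w‖ := by
      refine (Complex.abs_re_le_norm _).trans ?_
      rw [norm_mul]
      exact mul_le_of_le_one_left (norm_nonneg _) (hb ω)
    exact abs_le.1 h1
  have h2 := (hasSubgaussianMGF_of_mem_Icc hm hIcc).mgf_le 1
  have hint : Integrable Z μ := by
    refine Integrable.of_bound hZ.aestronglyMeasurable 1 (Filter.Eventually.of_forall hb)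
  have h3 : ∫ ω, (Z ω * w).re ∂μ = ((∫ ω, Z ω ∂μ) * w).re := by
    rw [← integral_mul_const]
    have := integral_re (f := fun ω => Z ω * w) (μ := μ) (hint.mul_const w)
    exact this
  have h4 : ∫ ω, (Z ω * w).re ∂μ ≤ ‖∫ ω, Z ω ∂μ‖ * ‖w‖ := by
    rw [h3]
    exact (Complex.re_le_norm _).trans (norm_mul_le _ _)
  have h5 : ∫ ω, Real.exp (Z ω * w).re ∂μ = Real.exp (∫ ω, (Z ω * w).re ∂μ) *
      mgf (fun ω => (Z ω * w).re - ∫ ω, (Z ω * w).re ∂μ) μ 1 := by
    unfold mgf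
    rw [← integral_const_mul]
    congr 1
    ext ω
    rw [← Real.exp_add]
    ring_nf
  have h6 : (((‖‖w‖ - -‖w‖‖₊ / 2) ^ 2 : NNReal) : ℝ) = ‖w‖ ^ 2 := by
    push_cast
    rw [sub_neg_eq_add, Real.norm_of_nonneg (by positivity)]
    ring
  rw [h6] at h2
  rw [h5]
  calc Real.exp (∫ ω, (Z ω * w).re ∂μ) *
      mgf (fun ω => (Z ω * w).re - ∫ ω, (Z ω * w).re ∂μ) μ 1
      ≤ Real.exp (‖∫ ω, Z ω ∂μ‖ * ‖w‖) * Real.exp (‖w‖ ^ 2 * 1 ^ 2 / 2) := by
        apply mul_le_mul (Real.exp_le_exp.2 h4) h2 mgf_nonneg (Real.exp_pos _).le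
    _ = _ := by rw [← Real.exp_add]; ring_nf

theorem admis_exp {Ω : Type*} [MeasurableSpace Ω] (μ : Measure Ω) [IsProbabilityMeasure μ]
    {L : ℕ} (w : Fin L → ℂ) {κ : ℝ} (hκ : 0 ≤ κ) :
    Admis μ L (fun z => ((Real.exp (∑ i, z i * w i).re / Real.exp (∑ i, ‖w i‖) : ℝ) : ℂ)) κ
      (Real.exp (κ * ∑ i, ‖w i‖ + (1 / 2) * ∑ i, ‖w i‖ ^ 2) / Real.exp (∑ i, ‖w i‖)) := by
  refine ⟨?_, ?_, ?_⟩
  · apply Complex.measurable_ofReal.comp
    apply Measurable.div_const
    apply Real.measurable_exp.comp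
    apply Complex.measurable_re.comp
    apply Finset.measurable_sum
    intro i _
    exact (measurable_pi_apply i).mul_const _
  · intro z hz
    rw [Complex.norm_real, Real.norm_of_nonneg (by positivity), div_le_one (Real.exp_pos _)]
    apply Real.exp_le_exp.2
    refine (Complex.re_le_norm _).trans ((norm_sum_le _ _).trans ?_)
    apply Finset.sum_le_sum
    intro i _
    rw [norm_mul]
    exact mul_le_of_le_one_left (norm_nonneg _) (hz i)
  · intro Z hZ hb hI hmean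
    rw [integral_complex_ofReal, Complex.norm_real]
    have h0 : 0 ≤ ∫ ω, Real.exp (∑ i, Z i ω * w i).re / Real.exp (∑ i, ‖w i‖) ∂μ :=
      integral_nonneg fun ω => by positivity
    rw [Real.norm_of_nonneg h0, integral_div]
    apply div_le_div_of_nonneg_right _ (Real.exp_pos _).le
    have h1 : ∀ ω, Real.exp (∑ i, Z i ω * w i).re = ∏ i, Real.exp (Z i ω * w i).re := by
      intro ω
      rw [← Real.exp_sum, Complex.re_sum]
    simp_rw [h1]
    have h2 := hI.integral_fun_prod_comp (fun i => (hZ i).aemeasurable)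
      (f := fun i z => Real.exp (z * w i).re) (fun i =>
        (Real.measurable_exp.comp (Complex.measurable_re.comp
          (measurable_id.mul_const (w i)))).aestronglyMeasurable)
    rw [h2]
    have h3 : ∀ i ∈ (Finset.univ : Finset (Fin L)), ∫ ω, Real.exp (Z i ω * w i).re ∂μ ≤
        Real.exp (κ * ‖w i‖ + ‖w i‖ ^ 2 / 2) := by
      intro i _
      refine (hoef_one (Z i) (hZ i) (hb i) (w i)).trans (Real.exp_le_exp.2 ?_)
      have := mul_le_mul_of_nonneg_right (hmean i) (norm_nonneg (w i))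
      linarith
    refine (Finset.prod_le_prod (fun i _ => integral_nonneg fun ω => (Real.exp_pos _).le) h3).trans ?_
    rw [← Real.exp_sum]
    apply Real.exp_le_exp.2
    rw [Finset.sum_add_distrib, ← Finset.mul_sum, ← Finset.sum_div]
    linarith

end Pool.Agent.RSC
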