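import Pool.Agent.RSC.AsAv
import Pool.Agent.RSC.Hoef
import Pool.Agent.RSC.Cho
import Pool.Agent.RSC.DetB57

open Filter Topology MeasureTheory ProbabilityTheory ComplexConjugate

namespace Pool.Agent.RSC

variable {Ω : Type*} [MeasurableSpace Ω] {μ : Measure Ω} {χ : Ω → ℕ → ℂ}

/-- the complex number of a pair of rationals -/
noncomputable def cw (q : ℚ × ℚ) : ℂ := (q.1 : ℂ) + (q.2 : ℂ) * Complex.I

theorem cw_norm_sq (q : ℚ × ℚ) : ‖cw q‖ ^ 2 = (q.1 : ℝ) ^ 2 + (q.2 : ℝ) ^ 2 := by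
  rw [← Complex.normSq_eq_norm_sq, Complex.normSq_apply]
  simp [cw]
  ring

theorem ae_subG [IsProbabilityMeasure μ] (hχ : RM μ χ) (hV : VarDiv μ χ) :
    ∀ᵐ ω ∂μ, SubG (χ ω) := by
  have key : ∀ᵐ ω ∂μ, ∀ (L : ℕ) (w : Fin L → ℚ × ℚ) (j : ℕ), ∀ ε : ℝ, 0 < ε →
      ∀ᶠ N : ℕ in atTop,
      ‖avg (fun z : Fin L → ℂ => ((Real.exp (∑ i, z i * cw (w i)).re /
        Real.exp (∑ i, ‖cw (w i)‖) : ℝ) : ℂ)) (χ ω) N‖ ≤
      Real.exp ((1 / ((j : ℝ) + 1)) * ∑ i, ‖cw (w i)‖ + (1 / 2) * ∑ i, ‖cw (w i)‖ ^ 2) /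
        Real.exp (∑ i, ‖cw (w i)‖) + ε := by
    refine ae_all_iff.2 fun L => ae_all_iff.2 fun w => ae_all_iff.2 fun j => ?_
    refine ae_avg hχ hV (admis_exp μ (fun i => cw (w i)) (κ := 1 / ((j : ℝ) + 1)) (by positivity))
      (by positivity) (by positivity)
  filter_upwards [key] with ω hω
  intro L w d hd
  obtain ⟨W, hW⟩ : ∃ W, W = ∑ i, ‖cw (w i)‖ := ⟨_, rfl⟩
  obtain ⟨Q, hQ⟩ : ∃ Q, Q = ∑ i, ‖cw (w i)‖ ^ 2 := ⟨_, rfl⟩
  have hQ' : ∑ i, (((w i).1 : ℝ) ^ 2 + ((w i).2 : ℝ) ^ 2) = Q := by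
    rw [hQ]
    exact Finset.sum_congr rfl fun i _ => (cw_norm_sq (w i)).symm
  -- choose j
  have hlim : Tendsto (fun j : ℕ => Real.exp ((1 / ((j : ℝ) + 1)) * W + (1 / 2) * Q)) atTop
      (𝓝 (Real.exp (0 * W + (1 / 2) * Q))) := by
    refine (Real.continuous_exp.tendsto _).comp ?_
    exact (tendsto_one_div_add_atTop_nhds_zero_nat.mul_const W).add_const _
  have hd2 : Real.exp (0 * W + (1 / 2) * Q) < Real.exp ((1 / 2) * Q) + d / 2 := by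
    rw [zero_mul, zero_add]; linarith
  obtain ⟨j, hj⟩ := (hlim.eventually (gt_mem_nhds hd2)).exists
  have hB : 0 < Real.exp W := Real.exp_pos W
  have hev := hω L w j (d / 2 / Real.exp W) (by positivity)
  rw [hQ']
  filter_upwards [hev] with N hN
  rw [← hW, ← hQ] at hN
  have hre : ‖avg (fun z : Fin L → ℂ => ((Real.exp (∑ i, z i * cw (w i)).re /
        Real.exp W : ℝ) : ℂ)) (χ ω) N‖ =
      ((1 / (N : ℝ)) * ∑ n ∈ Finset.Icc 1 N, Real.exp (∑ i : Fin L, χ ω (n + i) *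
        (((w i).1 : ℂ) + ((w i).2 : ℂ) * Complex.I)).re) / Real.exp W := by
    have h1 : avg (fun z : Fin L → ℂ => ((Real.exp (∑ i, z i * cw (w i)).re /
        Real.exp W : ℝ) : ℂ)) (χ ω) N = (((1 / (N : ℝ)) * ∑ n ∈ Finset.Icc 1 N,
        Real.exp (∑ i : Fin L, χ ω (n + i) *
        (((w i).1 : ℂ) + ((w i).2 : ℂ) * Complex.I)).re) / Real.exp W : ℝ) := by
      unfold avg cw
      push_cast
      rw [mul_div_assoc, Finset.sum_div]
    rw [h1, Complex.norm_real, Real.norm_of_nonneg]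
    have : 0 ≤ ∑ n ∈ Finset.Icc 1 N, Real.exp (∑ i : Fin L, χ ω (n + i) *
        (((w i).1 : ℂ) + ((w i).2 : ℂ) * Complex.I)).re :=
      Finset.sum_nonneg fun n _ => (Real.exp_pos _).le
    positivity
  rw [hre, ← add_div, div_le_div_iff_of_pos_right hB] at hN
  linarith

theorem ae_chowla [IsProbabilityMeasure μ] (hχ : RM μ χ) (hV : VarDiv μ χ) :
    ∀ᵐ ω ∂μ, ∀ (k : ℕ) (s : Fin (k + 1) → ℕ), Function.Injective s → ∀ a b : Fin k → ℕ,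
      Tendsto (fun N : ℕ => (1 / (N : ℂ)) * ∑ n ∈ Finset.Icc 1 N,
        (χ ω (n + s 0) * ∏ i : Fin k,
          (χ ω (n + s i.succ) ^ a i * conj (χ ω (n + s i.succ)) ^ b i))) atTop (𝓝 0) := by
  have key : ∀ᵐ ω ∂μ, ∀ (k : ℕ) (s : Fin (k + 1) → ℕ) (a b : Fin k → ℕ) (L : ℕ)
      (hL : ∀ i, s i < L) (hs : Function.Injective s) (j : ℕ), ∀ ε : ℝ, 0 < ε →
      ∀ᶠ N : ℕ in atTop,
      ‖avg (mono (fun i => (⟨s i, hL i⟩ : Fin L)) a b) (χ ω) N‖ ≤ 1 / ((j : ℝ) + 1) + ε := by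
    refine ae_all_iff.2 fun k => ae_all_iff.2 fun s => ae_all_iff.2 fun a => ae_all_iff.2 fun b =>
      ae_all_iff.2 fun L => ae_all_iff.2 fun hL => ae_all_iff.2 fun hs => ae_all_iff.2 fun j => ?_
    refine ae_avg hχ hV (admis_mono μ (fun i => (⟨s i, hL i⟩ : Fin L)) ?_ a b
      (1 / ((j : ℝ) + 1)) (by positivity)) (by positivity) (by positivity)
    intro i i' h
    exact hs (by simpa using h)
  filter_upwards [key] with ω hω
  intro k s hs a b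
  obtain ⟨L, hL⟩ : ∃ L : ℕ, ∀ i, s i < L :=
    ⟨(∑ i, s i) + 1, fun i => by
      have := Finset.single_le_sum (f := s) (fun i _ => Nat.zero_le _) (Finset.mem_univ i)
      omega⟩
  rw [Metric.tendsto_atTop]
  intro ε hε
  obtain ⟨j, hj⟩ := exists_nat_one_div_lt (half_pos hε)
  obtain ⟨N₀, hN₀⟩ := eventually_atTop.1 (hω k s a b L hL hs j (ε / 4) (by positivity))
  refine ⟨N₀, fun N hN => ?_⟩
  have h1 := hN₀ N hN
  rw [dist_zero_right]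
  have h2 : avg (mono (fun i => (⟨s i, hL i⟩ : Fin L)) a b) (χ ω) N =
      (1 / (N : ℂ)) * ∑ n ∈ Finset.Icc 1 N,
        (χ ω (n + s 0) * ∏ i : Fin k,
          (χ ω (n + s i.succ) ^ a i * conj (χ ω (n + s i.succ)) ^ b i)) := rfl
  rw [← h2]
  linarith

end Pool.Agent.RSC
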