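import Mathlib

/-!
# Fubi (size 3): Fubini for independent variables

PROOF.  `μ {ω | (X ω, Z ω) ∈ E} = (μ.map (fun ω => (X ω, Z ω))) E = ((μ.map X).prod (μ.map Z)) E`
(`indepFun_iff_map_prod_eq_prod_map_map`) `= ∫⁻ a, (μ.map Z) (Prod.mk a ⁻¹' E) ∂(μ.map X)`
(`Measure.prod_apply`) `≤ ∫⁻ a, ρ ∂(μ.map X) = ρ`, because for `(μ.map X)`-almost every `a` we have
`a ∈ S` (`ae_map_iff` with `hS`, `hXS`), and then `(μ.map Z) (Prod.mk a ⁻¹' E) = μ {(a, Z) ∈ E} ≤ ρ`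
(`Measure.map_apply`).
-/

open MeasureTheory ProbabilityTheory

namespace Pool.Agent.RSC

theorem fubini_indep {Ω : Type*} [MeasurableSpace Ω] {μ : Measure Ω} [IsProbabilityMeasure μ]
    {β γ : Type*} [MeasurableSpace β] [MeasurableSpace γ] {X : Ω → β} {Z : Ω → γ}
    (hX : Measurable X) (hZ : Measurable Z) (hI : IndepFun X Z μ) {S : Set β}
    (hS : MeasurableSet S) (hXS : ∀ ω, X ω ∈ S) {E : Set (β × γ)} (hE : MeasurableSet E)
    {ρ : ENNReal} (h : ∀ a ∈ S, μ {ω | (a, Z ω) ∈ E} ≤ ρ) : μ {ω | (X ω, Z ω) ∈ E} ≤ ρ := by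
  have hpair : Measurable (fun ω => (X ω, Z ω)) := hX.prodMk hZ
  have h1 : μ {ω | (X ω, Z ω) ∈ E} = (μ.map (fun ω => (X ω, Z ω))) E := by
    rw [Measure.map_apply hpair hE]
    rfl
  have h2 : μ.map (fun ω => (X ω, Z ω)) = (μ.map X).prod (μ.map Z) :=
    (indepFun_iff_map_prod_eq_prod_map_map hX.aemeasurable hZ.aemeasurable).mp hI
  have : IsProbabilityMeasure (μ.map X) := Measure.isProbabilityMeasure_map hX.aemeasurable
  have : IsProbabilityMeasure (μ.map Z) := Measure.isProbabilityMeasure_map hZ.aemeasurable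
  rw [h1, h2, Measure.prod_apply hE]
  have hae : ∀ᵐ a ∂(μ.map X), (μ.map Z) (Prod.mk a ⁻¹' E) ≤ ρ := by
    have hS' : ∀ᵐ a ∂(μ.map X), a ∈ S := by
      exact (ae_map_iff (p := fun a => a ∈ S) hX.aemeasurable hS).mpr
        (Filter.Eventually.of_forall hXS)
    filter_upwards [hS'] with a ha
    rw [Measure.map_apply hZ (measurable_prodMk_left hE)]
    exact h a ha
  calc ∫⁻ a, (μ.map Z) (Prod.mk a ⁻¹' E) ∂(μ.map X)
      ≤ ∫⁻ _, ρ ∂(μ.map X) := lintegral_mono_ae hae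
    _ = ρ := by simp

end Pool.Agent.RSC
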