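import Pool.Agent.RSC.Sig

open Filter Topology MeasureTheory ProbabilityTheory ComplexConjugate

namespace Pool.Agent.RSC

variable {Ω : Type*} [MeasurableSpace Ω] {μ : Measure Ω} {χ : Ω → ℕ → ℂ}

theorem iIndepFun_yf (hχ : RM μ χ) {L : ℕ} {y : ℕ} (hy : L ≤ y) (n : ℕ) :
    iIndepFun (fun (h : Fin L) => Yf χ y (n + h)) μ := by
  refine iIndepFun_of_sg hχ (fun h : Fin L => {p : Nat.Primes | y < (p : ℕ) ∧ (p : ℕ) ∣ n + h})
    ?_ (fun h => yf_sg χ y _ _ fun p hp hd => ⟨hp, hd⟩)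
  intro h h' hne
  rw [Set.disjoint_left]
  rintro p ⟨hp, hd⟩ ⟨_, hd'⟩
  apply hne
  have h1 : h.val < L := h.2
  have h2 : h'.val < L := h'.2
  rcases lt_trichotomy h.val h'.val with hlt | heq | hlt
  · have := (Nat.dvd_sub hd' hd)
    have h3 : n + h'.val - (n + h.val) = h'.val - h.val := by omega
    rw [h3] at this
    have := Nat.le_of_dvd (by omega) this
    omega
  · exact Fin.ext heq
  · have := (Nat.dvd_sub hd hd')
    have h3 : n + h.val - (n + h'.val) = h.val - h'.val := by omega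
    rw [h3] at this
    have := Nat.le_of_dvd (by omega) this
    omega

theorem indepFun_windows (hχ : RM μ χ) {L : ℕ} {y n m : ℕ}
    (hnm : ∀ p : ℕ, p.Prime → y < p → ∀ h h' : Fin L, p ∣ n + h → ¬ p ∣ m + h') :
    IndepFun (fun ω (h : Fin L) => Yf χ y (n + h) ω) (fun ω (h : Fin L) => Yf χ y (m + h) ω) μ := by
  refine indepFun_of_sg hχ (S := {p : Nat.Primes | y < (p : ℕ) ∧ ∃ h : Fin L, (p : ℕ) ∣ n + h})
    (T := {p : Nat.Primes | y < (p : ℕ) ∧ ∃ h : Fin L, (p : ℕ) ∣ m + h}) ?_ ?_ ?_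
  · rw [Set.disjoint_left]
    rintro p ⟨hp, h, hd⟩ ⟨_, h', hd'⟩
    exact hnm p p.2 hp h h' hd hd'
  · refine @measurable_pi_lambda _ _ _ (_) _ _ fun h => ?_
    exact yf_sg χ y _ _ fun p hp hd => ⟨hp, h, hd⟩
  · refine @measurable_pi_lambda _ _ _ (_) _ _ fun h => ?_
    exact yf_sg χ y _ _ fun p hp hd => ⟨hp, h, hd⟩

theorem indepFun_uf_yf (hχ : RM μ χ) (y : ℕ) :
    IndepFun (fun ω (n : ℕ) => Uf χ y n ω) (fun ω (n : ℕ) => Yf χ y n ω) μ := by
  refine indepFun_of_sg hχ (S := {p : Nat.Primes | ¬ y < (p : ℕ)})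
    (T := {p : Nat.Primes | y < (p : ℕ)}) ?_ ?_ ?_
  · rw [Set.disjoint_left]
    intro p hp hp'
    exact hp hp'
  · refine @measurable_pi_lambda _ _ _ (_) _ _ fun h => ?_
    exact uf_sg χ y _ _ fun p hp hd => hp
  · refine @measurable_pi_lambda _ _ _ (_) _ _ fun h => ?_
    exact yf_sg χ y _ _ fun p hp hd => hp

end Pool.Agent.RSC
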