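import Mathlib

open Finset

namespace Pool.Agent.RSC

/-- tail of the squares -/
lemma num57_tail (y : ℕ) (hy : 1 ≤ y) (N : ℕ) :
    ∑ k ∈ Ioc y N, (1 : ℝ) / (k : ℝ) ^ 2 ≤ 1 / y := by
  have hy0 : (0 : ℝ) < y := by exact_mod_cast hy
  have h : ∀ n : ℕ, y ≤ n → ∑ k ∈ Ioc y n, (1 : ℝ) / (k : ℝ) ^ 2 ≤ 1 / y - 1 / n := by
    intro n hn
    induction n, hn using Nat.le_induction with
    | base => simp
    | succ n hn ih =>
      have hn0 : (0 : ℝ) < n := by exact_mod_cast (by omega : 0 < n)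
      rw [Finset.sum_Ioc_succ_top (by omega)]
      have h1 : (1 : ℝ) / ((n + 1 : ℕ) : ℝ) ^ 2 ≤ 1 / n - 1 / ((n + 1 : ℕ) : ℝ) := by
        push_cast
        rw [div_sub_div _ _ hn0.ne' (by positivity), div_le_div_iff₀ (by positivity) (by positivity)]
        nlinarith
      linarith
  rcases le_total y N with h1 | h1
  · refine (h N h1).trans ?_
    have : (0 : ℝ) ≤ 1 / N := by positivity
    linarith
  · rw [Finset.Ioc_eq_empty (by omega)]
    simp

lemma num57_card_dvd (N p : ℕ) :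
    ((((Icc 1 N).filter fun n => p ∣ n).card : ℕ) : ℝ) = ((N / p : ℕ) : ℝ) := by
  congr 1
  exact Nat.Ioc_filter_dvd_card_eq_div N p

/-- the second moment -/
lemma num57_second (Q : Finset ℕ) (hQ : ∀ p ∈ Q, p.Prime) (v : ℕ → ℝ) (hv0 : ∀ p, 0 ≤ v p)
    (hv1 : ∀ p, v p ≤ 1) (N : ℕ) (hQN : ∀ p ∈ Q, p ≤ N) :
    ∑ n ∈ Icc 1 N, ((∑ p ∈ Q with p ∣ n, v p) - ∑ p ∈ Q, v p / p) ^ 2 ≤
      3 * N * ∑ p ∈ Q, v p / p := by
  set A := ∑ p ∈ Q, v p / p with hA
  have hA0 : 0 ≤ A := Finset.sum_nonneg fun p _ => div_nonneg (hv0 p) (Nat.cast_nonneg p)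
  -- first moment
  have h1 : ∑ n ∈ Icc 1 N, (∑ p ∈ Q with p ∣ n, v p) = ∑ p ∈ Q, v p * ((N / p : ℕ) : ℝ) := by
    simp_rw [Finset.sum_filter]
    rw [Finset.sum_comm]
    apply Finset.sum_congr rfl
    intro p _
    rw [← Finset.sum_filter, Finset.sum_const, nsmul_eq_mul, num57_card_dvd]
    ring
  have h2 : ∑ n ∈ Icc 1 N, (∑ p ∈ Q with p ∣ n, v p) ^ 2 ≤
      ∑ p ∈ Q, v p * ((N / p : ℕ) : ℝ) + ∑ p ∈ Q, ∑ q ∈ Q, v p * v q * ((N : ℝ) / (p * q)) := by
    have h3 : ∀ n, (∑ p ∈ Q with p ∣ n, v p) ^ 2 =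
        ∑ p ∈ Q, ∑ q ∈ Q, if p ∣ n ∧ q ∣ n then v p * v q else 0 := by
      intro n
      rw [sq, Finset.sum_filter, Finset.sum_mul_sum]
      apply Finset.sum_congr rfl
      intro p _
      apply Finset.sum_congr rfl
      intro q _
      by_cases h4 : p ∣ n <;> by_cases h5 : q ∣ n <;> simp [h4, h5]
    simp_rw [h3]
    rw [Finset.sum_comm, ← Finset.sum_add_distrib]
    apply Finset.sum_le_sum
    intro p hp
    rw [Finset.sum_comm, ← Finset.add_sum_erase _ _ hp]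
    have h6 : ∑ n ∈ Icc 1 N, (if p ∣ n ∧ p ∣ n then v p * v p else 0) ≤ v p * ((N / p : ℕ) : ℝ) := by
      rw [← Finset.sum_filter, Finset.sum_const, nsmul_eq_mul]
      simp only [and_self]
      rw [num57_card_dvd, mul_comm]
      apply mul_le_mul_of_nonneg_right _ (Nat.cast_nonneg _)
      exact mul_le_of_le_one_left (hv0 p) (hv1 p)
    have h7 : ∑ q ∈ Q.erase p, ∑ n ∈ Icc 1 N, (if p ∣ n ∧ q ∣ n then v p * v q else 0) ≤
        ∑ q ∈ Q, v p * v q * ((N : ℝ) / (p * q)) := by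
      calc ∑ q ∈ Q.erase p, ∑ n ∈ Icc 1 N, (if p ∣ n ∧ q ∣ n then v p * v q else 0)
          ≤ ∑ q ∈ Q.erase p, v p * v q * ((N : ℝ) / (p * q)) := by
            apply Finset.sum_le_sum
            intro q hq
            have hne : p ≠ q := (Finset.ne_of_mem_erase hq).symm
            have hqQ := Finset.mem_of_mem_erase hq
            have hcop : p.Coprime q := (Nat.coprime_primes (hQ p hp) (hQ q hqQ)).2 hne
            have h8 : ∀ n, (p ∣ n ∧ q ∣ n) ↔ p * q ∣ n := fun n =>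
              ⟨fun h => hcop.mul_dvd_of_dvd_of_dvd h.1 h.2,
                fun h => ⟨(dvd_mul_right p q).trans h, (dvd_mul_left q p).trans h⟩⟩
            simp_rw [h8]
            rw [← Finset.sum_filter, Finset.sum_const, nsmul_eq_mul, num57_card_dvd, mul_comm]
            apply mul_le_mul_of_nonneg_left _ (mul_nonneg (hv0 p) (hv0 q))
            refine Nat.cast_div_le.trans (le_of_eq ?_)
            push_cast
            rfl
        _ ≤ _ := by
            apply Finset.sum_le_sum_of_subset_of_nonneg (Finset.erase_subset _ _)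
            intro q _ _
            have := hv0 p
            have := hv0 q
            positivity
    linarith
  have h9 : ∑ p ∈ Q, ∑ q ∈ Q, v p * v q * ((N : ℝ) / (p * q)) = N * A ^ 2 := by
    rw [sq, hA, Finset.sum_mul_sum, Finset.mul_sum]
    apply Finset.sum_congr rfl
    intro p _
    rw [Finset.mul_sum]
    apply Finset.sum_congr rfl
    intro q _
    ring
  have h10 : ∑ p ∈ Q, v p * ((N / p : ℕ) : ℝ) ≤ N * A := by
    rw [hA, Finset.mul_sum]
    apply Finset.sum_le_sum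
    intro p _
    calc v p * ((N / p : ℕ) : ℝ) ≤ v p * ((N : ℝ) / p) :=
          mul_le_mul_of_nonneg_left Nat.cast_div_le (hv0 p)
      _ = _ := by ring
  have h11 : (N : ℝ) * A - N ≤ ∑ p ∈ Q, v p * ((N / p : ℕ) : ℝ) := by
    have h12 : ∀ p ∈ Q, v p * ((N : ℝ) / p) - 1 ≤ v p * ((N / p : ℕ) : ℝ) := by
      intro p hp
      have hp0 : (0 : ℝ) < p := by exact_mod_cast (hQ p hp).pos
      have h13 : (N : ℝ) / p - 1 ≤ ((N / p : ℕ) : ℝ) := by
        have h1 : N < p * (N / p) + p := by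
          have := Nat.lt_mul_div_succ N (hQ p hp).pos
          rwa [Nat.mul_succ] at this
        have h2 : (N : ℝ) ≤ p * ((N / p : ℕ) : ℝ) + p := by exact_mod_cast h1.le
        rw [div_sub_one hp0.ne', div_le_iff₀ hp0]
        linarith
      have h14 := mul_le_mul_of_nonneg_left h13 (hv0 p)
      have := hv1 p
      nlinarith
    have h15 := Finset.sum_le_sum h12
    rw [Finset.sum_sub_distrib] at h15
    have h16 : ∑ p ∈ Q, v p * ((N : ℝ) / p) = N * A := by
      rw [hA, Finset.mul_sum]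
      apply Finset.sum_congr rfl
      intro p _
      ring
    have h17 : (∑ p ∈ Q, (1 : ℝ)) ≤ N := by
      rw [Finset.sum_const, nsmul_eq_mul, mul_one]
      have h18 : Q ⊆ Icc 1 N := fun p hp => Finset.mem_Icc.2 ⟨(hQ p hp).pos, hQN p hp⟩
      have := Finset.card_le_card h18
      simp at this
      exact_mod_cast this
    linarith
  have h19 : ∑ n ∈ Icc 1 N, ((∑ p ∈ Q with p ∣ n, v p) - A) ^ 2 =
      ∑ n ∈ Icc 1 N, (∑ p ∈ Q with p ∣ n, v p) ^ 2 -
        2 * A * ∑ n ∈ Icc 1 N, (∑ p ∈ Q with p ∣ n, v p) + N * A ^ 2 := by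
    rw [Finset.mul_sum, ← Finset.sum_sub_distrib]
    have : (N : ℝ) * A ^ 2 = ∑ n ∈ Icc 1 N, A ^ 2 := by simp
    rw [this, ← Finset.sum_add_distrib]
    apply Finset.sum_congr rfl
    intro n _
    ring
  rw [h19, h1]
  rw [h9] at h2
  nlinarith

/-- The elements of `[1, N]` at which `∑ v_p` over the primes `p > y` dividing exactly once is
small. -/
theorem num57_bad (v : ℕ → ℝ) (hv0 : ∀ p, 0 ≤ v p) (hv1 : ∀ p, v p ≤ 1) (y N : ℕ) (hy : 1 ≤ y)
    (A : ℝ) (hA : 0 < A) (hAN : A ≤ ∑ p ∈ Ioc y N with p.Prime, v p / p) :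
    ((((Icc 1 N).filter fun n => ∑ p ∈ Ioc y N with (p.Prime ∧ p ∣ n ∧ ¬ p ^ 2 ∣ n), v p < A / 2).card
      : ℕ) : ℝ) ≤ 12 * N / A + N / y := by
  classical
  set Q := (Ioc y N).filter Nat.Prime with hQd
  have hQ : ∀ p ∈ Q, p.Prime := fun p hp => (Finset.mem_filter.1 hp).2
  have hQN : ∀ p ∈ Q, p ≤ N := fun p hp => (Finset.mem_Ioc.1 (Finset.mem_filter.1 hp).1).2
  set S := ∑ p ∈ Q, v p / p with hS
  have hS0 : 0 < S := lt_of_lt_of_le hA hAN
  have h2 := num57_second Q hQ v hv0 hv1 N hQN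
  rw [← hS] at h2
  -- the bad set splits
  have hsub : ((Icc 1 N).filter fun n => ∑ p ∈ Ioc y N with (p.Prime ∧ p ∣ n ∧ ¬ p ^ 2 ∣ n), v p < A / 2) ⊆
      ((Icc 1 N).filter fun n => ∑ p ∈ Q with p ∣ n, v p < S / 2) ∪
      ((Ioc y N).biUnion fun p => (Icc 1 N).filter fun n => p ^ 2 ∣ n) := by
    intro n hn
    rw [Finset.mem_filter] at hn
    rw [Finset.mem_union]
    by_cases h3 : ∃ p ∈ Ioc y N, p ^ 2 ∣ n
    · right
      obtain ⟨p, hp, hpn⟩ := h3
      rw [Finset.mem_biUnion]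
      exact ⟨p, hp, Finset.mem_filter.2 ⟨hn.1, hpn⟩⟩
    · left
      push Not at h3
      rw [Finset.mem_filter]
      refine ⟨hn.1, ?_⟩
      have h4 : ∑ p ∈ Q with p ∣ n, v p =
          ∑ p ∈ Ioc y N with (p.Prime ∧ p ∣ n ∧ ¬ p ^ 2 ∣ n), v p := by
        apply Finset.sum_congr _ (fun _ _ => rfl)
        ext p
        simp only [hQd, Finset.mem_filter]
        constructor
        · rintro ⟨⟨h5, h6⟩, h7⟩
          exact ⟨h5, h6, h7, h3 p h5⟩
        · rintro ⟨h5, h6, h7, _⟩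
          exact ⟨⟨h5, h6⟩, h7⟩
      rw [h4]
      linarith [hn.2]
  have hc1 : ((((Icc 1 N).filter fun n => ∑ p ∈ Q with p ∣ n, v p < S / 2).card : ℕ) : ℝ) ≤
      12 * N / A := by
    set E := (Icc 1 N).filter fun n => ∑ p ∈ Q with p ∣ n, v p < S / 2 with hE
    have h5 : (E.card : ℝ) * (S / 2) ^ 2 ≤ 3 * N * S := by
      refine le_trans ?_ h2
      calc (E.card : ℝ) * (S / 2) ^ 2 = ∑ n ∈ E, (S / 2) ^ 2 := by simp
        _ ≤ ∑ n ∈ E, ((∑ p ∈ Q with p ∣ n, v p) - S) ^ 2 := by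
            apply Finset.sum_le_sum
            intro n hn
            have h6 := (Finset.mem_filter.1 hn).2
            have h7 : S / 2 ≤ S - (∑ p ∈ Q with p ∣ n, v p) := by linarith
            have h8 : (S / 2) ^ 2 ≤ (S - (∑ p ∈ Q with p ∣ n, v p)) ^ 2 := by gcongr
            calc (S / 2) ^ 2 ≤ (S - (∑ p ∈ Q with p ∣ n, v p)) ^ 2 := h8
              _ = _ := by ring
        _ ≤ _ := by
            apply Finset.sum_le_sum_of_subset_of_nonneg (Finset.filter_subset _ _)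
            intro n _ _
            positivity
    have h9 : (E.card : ℝ) * S ≤ 12 * N := by
      have h10 : (E.card : ℝ) * S * S ≤ 12 * N * S := by nlinarith
      exact le_of_mul_le_mul_right h10 hS0
    rw [le_div_iff₀ hA]
    calc (E.card : ℝ) * A ≤ (E.card : ℝ) * S := by gcongr
      _ ≤ _ := h9
  have hc2 : ((((Ioc y N).biUnion fun p => (Icc 1 N).filter fun n => p ^ 2 ∣ n).card : ℕ) : ℝ) ≤
      N / y := by
    calc ((((Ioc y N).biUnion fun p => (Icc 1 N).filter fun n => p ^ 2 ∣ n).card : ℕ) : ℝ)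
        ≤ ∑ p ∈ Ioc y N, ((((Icc 1 N).filter fun n => p ^ 2 ∣ n).card : ℕ) : ℝ) := by
          exact_mod_cast Finset.card_biUnion_le
      _ ≤ ∑ p ∈ Ioc y N, (N : ℝ) * (1 / (p : ℝ) ^ 2) := by
          apply Finset.sum_le_sum
          intro p _
          rw [num57_card_dvd]
          refine Nat.cast_div_le.trans (le_of_eq ?_)
          push_cast
          ring
      _ = N * ∑ p ∈ Ioc y N, (1 : ℝ) / (p : ℝ) ^ 2 := by rw [Finset.mul_sum]
      _ ≤ N * (1 / y) := by
          apply mul_le_mul_of_nonneg_left (num57_tail y hy N) (Nat.cast_nonneg _)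
      _ = _ := by ring
  have hc3 : ((((Icc 1 N).filter fun n => ∑ p ∈ Ioc y N with (p.Prime ∧ p ∣ n ∧ ¬ p ^ 2 ∣ n),
      v p < A / 2).card : ℕ) : ℝ) ≤
      ((((Icc 1 N).filter fun n => ∑ p ∈ Q with p ∣ n, v p < S / 2).card : ℕ) : ℝ) +
      ((((Ioc y N).biUnion fun p => (Icc 1 N).filter fun n => p ^ 2 ∣ n).card : ℕ) : ℝ) := by
    exact_mod_cast (Finset.card_le_card hsub).trans (Finset.card_union_le _ _)
  linarith

/-- The same bound for any finite set of such elements. -/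
theorem num57_badS (v : ℕ → ℝ) (hv0 : ∀ p, 0 ≤ v p) (hv1 : ∀ p, v p ≤ 1) (y N : ℕ) (hy : 1 ≤ y)
    (A : ℝ) (hA : 0 < A) (hAN : A ≤ ∑ p ∈ Ioc y N with p.Prime, v p / p) (S : Finset ℕ)
    (hS : ∀ n ∈ S, 1 ≤ n ∧ n ≤ N ∧
      ∑ p ∈ Ioc y N with (p.Prime ∧ p ∣ n ∧ ¬ p ^ 2 ∣ n), v p < A / 2) :
    (S.card : ℝ) ≤ 12 * N / A + N / y := by
  refine le_trans ?_ (num57_bad v hv0 hv1 y N hy A hA hAN)
  have : S ⊆ (Icc 1 N).filter fun n =>
      ∑ p ∈ Ioc y N with (p.Prime ∧ p ∣ n ∧ ¬ p ^ 2 ∣ n), v p < A / 2 := by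
    intro n hn
    obtain ⟨h1, h2, h3⟩ := hS n hn
    rw [Finset.mem_filter, Finset.mem_Icc]
    exact ⟨⟨h1, h2⟩, h3⟩
  exact_mod_cast Finset.card_le_card this

/-- windows with a bad element -/
theorem num57_badw (v : ℕ → ℝ) (hv0 : ∀ p, 0 ≤ v p) (hv1 : ∀ p, v p ≤ 1) (y N L : ℕ) (hy : 1 ≤ y)
    (A : ℝ) (hA : 0 < A) (hAN : A ≤ ∑ p ∈ Ioc y N with p.Prime, v p / p) (S : Finset ℕ)
    (hS : ∀ n ∈ S, 1 ≤ n ∧ n ≤ N ∧ ∃ i < L, N < n + i ∨
      ∑ p ∈ Ioc y N with (p.Prime ∧ p ∣ n + i ∧ ¬ p ^ 2 ∣ n + i), v p < A / 2) :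
    (S.card : ℝ) ≤ L * (12 * N / A + N / y) + L := by
  classical
  have hsub : S ⊆
      ((range L).biUnion fun i => (((Icc 1 N).filter fun n =>
        ∑ p ∈ Ioc y N with (p.Prime ∧ p ∣ n ∧ ¬ p ^ 2 ∣ n), v p < A / 2).image fun n => n - i)) ∪
      (Ioc (N - L) N) := by
    intro n hn
    obtain ⟨h1, h2, i, hi, h3⟩ := hS n hn
    rw [Finset.mem_union]
    by_cases h4 : N < n + i
    · right
      rw [Finset.mem_Ioc]
      omega
    · left
      rcases h3 with h3 | h3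
      · exact (h4 h3).elim
      rw [Finset.mem_biUnion]
      refine ⟨i, Finset.mem_range.2 hi, ?_⟩
      rw [Finset.mem_image]
      refine ⟨n + i, ?_, by omega⟩
      rw [Finset.mem_filter, Finset.mem_Icc]
      exact ⟨⟨by omega, by omega⟩, h3⟩
  have hb := num57_bad v hv0 hv1 y N hy A hA hAN
  set E := (Icc 1 N).filter fun n =>
        ∑ p ∈ Ioc y N with (p.Prime ∧ p ∣ n ∧ ¬ p ^ 2 ∣ n), v p < A / 2
  have h5 : (((range L).biUnion fun i => E.image fun n => n - i).card : ℝ) ≤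
      L * (12 * N / A + N / y) := by
    calc (((range L).biUnion fun i => E.image fun n => n - i).card : ℝ)
        ≤ ∑ i ∈ range L, ((E.image fun n => n - i).card : ℝ) := by
          exact_mod_cast Finset.card_biUnion_le
      _ ≤ ∑ i ∈ range L, (12 * N / A + N / y) := by
          apply Finset.sum_le_sum
          intro i _
          refine le_trans ?_ hb
          exact_mod_cast Finset.card_image_le
      _ = _ := by
          rw [Finset.sum_const, Finset.card_range, nsmul_eq_mul]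
  have h6 : ((Ioc (N - L) N).card : ℝ) ≤ L := by
    rw [Nat.card_Ioc]
    exact_mod_cast (by omega : N - (N - L) ≤ L)
  calc _ ≤ ((((range L).biUnion fun i => E.image fun n => n - i) ∪ (Ioc (N - L) N)).card : ℝ) := by
        exact_mod_cast Finset.card_le_card hsub
    _ ≤ (((range L).biUnion fun i => E.image fun n => n - i).card : ℝ) +
        ((Ioc (N - L) N).card : ℝ) := by
        exact_mod_cast Finset.card_union_le _ _
    _ ≤ _ := by linarith

/-- pairs of windows that share a prime `> y` -/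
theorem num57_pairs (y N L : ℕ) (hy : 1 ≤ y) (hLN : L ≤ N) (S : Finset (ℕ × ℕ))
    (hS : ∀ q ∈ S, 1 ≤ q.1 ∧ q.1 ≤ N ∧ 1 ≤ q.2 ∧ q.2 ≤ N ∧ ∃ i < L, ∃ j < L, ∃ p : ℕ,
      p.Prime ∧ y < p ∧ p ∣ q.1 + i ∧ p ∣ q.2 + j) :
    (S.card : ℝ) ≤ 9 * L ^ 2 * N ^ 2 / y := by
  classical
  have hcount : ∀ i < L, ∀ p : ℕ, 1 ≤ p → p ≤ N + L →
      ((((Icc 1 N).filter fun n => p ∣ n + i).card : ℕ) : ℝ) ≤ 3 * N / p := by
    intro i hi p hp hpN
    have hp0 : (0 : ℝ) < p := by exact_mod_cast hp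
    have h1 : (((Icc 1 N).filter fun n => p ∣ n + i).card : ℕ) ≤ (N + L) / p := by
      have h2 : ((Icc 1 N).filter fun n => p ∣ n + i).card ≤
          ((Icc 1 (N + L)).filter fun n => p ∣ n).card := by
        apply Finset.card_le_card_of_injOn (fun n => n + i)
        · intro n hn
          simp only [Finset.coe_filter, Finset.mem_Icc, Set.mem_ofPred_eq] at hn ⊢
          omega
        · intro a _ b _ hab
          simpa using hab
      have h3 : ((Icc 1 (N + L)).filter fun n => p ∣ n).card = (N + L) / p :=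
        Nat.Ioc_filter_dvd_card_eq_div (N + L) p
      rwa [h3] at h2
    calc ((((Icc 1 N).filter fun n => p ∣ n + i).card : ℕ) : ℝ) ≤ (((N + L) / p : ℕ) : ℝ) := by
          exact_mod_cast h1
      _ ≤ ((N + L : ℕ) : ℝ) / p := Nat.cast_div_le
      _ ≤ 3 * N / p := by
          have : ((N + L : ℕ) : ℝ) ≤ 3 * N := by
            have : N + L ≤ 3 * N := by omega
            exact_mod_cast this
          gcongr
  have hsub : S ⊆
      (range L).biUnion fun i => (range L).biUnion fun j => (Ioc y (N + L)).biUnion fun p =>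
        ((Icc 1 N).filter fun n => p ∣ n + i) ×ˢ ((Icc 1 N).filter fun n => p ∣ n + j) := by
    intro q hq
    obtain ⟨h1, h2, h3, h4, i, hi, j, hj, p, hp, hyp, hpi, hpj⟩ := hS q hq
    simp only [Finset.mem_biUnion, Finset.mem_range, Finset.mem_Ioc, Finset.mem_product,
      Finset.mem_filter, Finset.mem_Icc]
    refine ⟨i, hi, j, hj, p, ⟨hyp, ?_⟩, ⟨⟨h1, h2⟩, hpi⟩, ⟨h3, h4⟩, hpj⟩
    have := Nat.le_of_dvd (by omega) hpi
    omega
  have h1 : (S.card : ℝ) ≤
      ∑ i ∈ range L, ∑ j ∈ range L, ∑ p ∈ Ioc y (N + L),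
        ((((Icc 1 N).filter fun n => p ∣ n + i) ×ˢ ((Icc 1 N).filter fun n => p ∣ n + j)).card : ℝ) := by
    have h2 := Finset.card_le_card hsub
    have h3 : ((range L).biUnion fun i => (range L).biUnion fun j => (Ioc y (N + L)).biUnion fun p =>
        ((Icc 1 N).filter fun n => p ∣ n + i) ×ˢ ((Icc 1 N).filter fun n => p ∣ n + j)).card ≤
        ∑ i ∈ range L, ∑ j ∈ range L, ∑ p ∈ Ioc y (N + L),
        (((Icc 1 N).filter fun n => p ∣ n + i) ×ˢ ((Icc 1 N).filter fun n => p ∣ n + j)).card := by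
      refine Finset.card_biUnion_le.trans (Finset.sum_le_sum fun i _ => ?_)
      refine Finset.card_biUnion_le.trans (Finset.sum_le_sum fun j _ => ?_)
      exact Finset.card_biUnion_le
    exact_mod_cast h2.trans h3
  refine h1.trans ?_
  calc ∑ i ∈ range L, ∑ j ∈ range L, ∑ p ∈ Ioc y (N + L),
        ((((Icc 1 N).filter fun n => p ∣ n + i) ×ˢ ((Icc 1 N).filter fun n => p ∣ n + j)).card : ℝ)
      ≤ ∑ i ∈ range L, ∑ j ∈ range L, ∑ p ∈ Ioc y (N + L), 9 * (N : ℝ) ^ 2 * (1 / (p : ℝ) ^ 2) := by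
        apply Finset.sum_le_sum
        intro i hi
        apply Finset.sum_le_sum
        intro j hj
        apply Finset.sum_le_sum
        intro p hp
        have hp1 : 1 ≤ p := by
          have := (Finset.mem_Ioc.1 hp).1
          omega
        have hp2 := (Finset.mem_Ioc.1 hp).2
        have c1 := hcount i (Finset.mem_range.1 hi) p hp1 hp2
        have c2 := hcount j (Finset.mem_range.1 hj) p hp1 hp2
        rw [Finset.card_product]
        push_cast
        calc (((Icc 1 N).filter fun n => p ∣ n + i).card : ℝ) *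
              (((Icc 1 N).filter fun n => p ∣ n + j).card : ℝ)
            ≤ (3 * N / p) * (3 * N / p) := by gcongr
          _ = _ := by ring
    _ = L * (L * (9 * (N : ℝ) ^ 2 * ∑ p ∈ Ioc y (N + L), (1 / (p : ℝ) ^ 2))) := by
        simp only [← Finset.mul_sum, Finset.sum_const, Finset.card_range, nsmul_eq_mul]
        ring
    _ ≤ L * (L * (9 * (N : ℝ) ^ 2 * (1 / y))) := by
        have := num57_tail y hy (N + L)
        gcongr
    _ = _ := by ring

end Pool.Agent.RSC
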