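import Pool.Agent.RSC.Ind
import Pool.Agent.RSC.Expc
import Pool.Agent.RSC.Num57

/-!
# Mean (size 4): the mean of the averages over the large primes

PROOF.  `∫ avg = (1/N) ∑_{n ≤ N} ∫ Θ (u (n + h) * Yf χ y (n + h))_h`.  Call `n ∈ [1, N]` bad if for
some `i < L`: `N < n + i` or `∑ p ∈ Ioc y N with (p.Prime ∧ p ∣ n + i ∧ ¬ p ^ 2 ∣ n + i), Vr p <
A / 2`; by `num57_badw` (`v = Vr μ χ`, `vr_nonneg`, `vr_le_one`) there are at most
`L (12 N / A + N / y) + L` bad `n`; for these the integral is at most `1` in modulus.  For the other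
`n`, for every `h < L`:
`‖∫ u (n + h) * Yf χ y (n + h)‖ ≤ exp (-(∑ p ∈ primeFactors (n + h), y < p ∧ ¬ p² ∣ n + h, Vr p) / 2)
≤ exp (-A / 4) ≤ κ` by `norm_integral_yf` (the sum over the prime factors is at least the sum over
`Ioc y N`, as `Vr ≥ 0`), the variables `u (n + h) * Yf χ y (n + h)`, `h : Fin L`, are independent
(`iIndepFun_yf`, `iIndepFun.comp`), so the integral is at most `τ` by `hΘ.exp`.
-/

open Filter Topology MeasureTheory ProbabilityTheory ComplexConjugate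

namespace Pool.Agent.RSC

variable {Ω : Type*} [MeasurableSpace Ω] {μ : Measure Ω} {χ : Ω → ℕ → ℂ}

private theorem Mean_sum (hχ : RM μ χ) [IsProbabilityMeasure μ] {y N m : ℕ} (hm : 1 ≤ m) :
    ∑ p ∈ Finset.Ioc y N with (p.Prime ∧ p ∣ m ∧ ¬ p ^ 2 ∣ m), Vr μ χ p ≤
      ∑ p ∈ m.primeFactors.filter (fun p : ℕ => y < p ∧ ¬ p ^ 2 ∣ m), Vr μ χ p := by
  refine Finset.sum_le_sum_of_subset_of_nonneg ?_ (fun p _ _ => vr_nonneg μ χ p)
  intro p hp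
  rw [Finset.mem_filter, Finset.mem_Ioc] at hp
  rw [Finset.mem_filter, Nat.mem_primeFactors]
  exact ⟨⟨hp.2.1, hp.2.2.1, by omega⟩, hp.1.1, hp.2.2.2⟩

private theorem Mean_meas (hχ : RM μ χ) {L : ℕ} (u : ℕ → ℂ) (y n : ℕ) (h : Fin L) :
    Measurable (fun ω => u (n + h) * Yf χ y (n + h) ω) :=
  (measurable_yf hχ y (n + h)).const_mul _

private theorem Mean_norm (hχ : RM μ χ) {L : ℕ} {u : ℕ → ℂ} (hu : ∀ n, ‖u n‖ ≤ 1) (y n : ℕ)
    (h : Fin L) (ω : Ω) : ‖u (n + h) * Yf χ y (n + h) ω‖ ≤ 1 := by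
  rw [norm_mul]
  exact mul_le_one₀ (hu _) (norm_nonneg _) (norm_yf hχ y _ ω)

private theorem Mean_measT (hχ : RM μ χ) {L : ℕ} {Θ : (Fin L → ℂ) → ℂ} (hΘ : Measurable Θ)
    (u : ℕ → ℂ) (y n : ℕ) :
    Measurable (fun ω => Θ (fun h : Fin L => u (n + h) * Yf χ y (n + h) ω)) :=
  hΘ.comp (measurable_pi_iff.2 fun h => Mean_meas hχ u y n h)

private theorem Mean_good [IsProbabilityMeasure μ] (hχ : RM μ χ) {L : ℕ} {Θ : (Fin L → ℂ) → ℂ}
    {κ τ : ℝ} (hΘ : Admis μ L Θ κ τ) {u : ℕ → ℂ} (hu : ∀ n, ‖u n‖ ≤ 1) {y : ℕ} (hL : L ≤ y)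
    {N : ℕ} {A : ℝ} (hκ : Real.exp (-A / 4) ≤ κ) {n : ℕ} (hn : 1 ≤ n)
    (hg : ∀ i < L, A / 2 ≤
      ∑ p ∈ Finset.Ioc y N with (p.Prime ∧ p ∣ n + i ∧ ¬ p ^ 2 ∣ n + i), Vr μ χ p) :
    ‖∫ ω, Θ (fun h : Fin L => u (n + h) * Yf χ y (n + h) ω) ∂μ‖ ≤ τ := by
  refine hΘ.exp (fun h ω => u (n + h) * Yf χ y (n + h) ω) (fun h => Mean_meas hχ u y n h)
    (fun h ω => Mean_norm hχ hu y n h ω) ?_ (fun h => ?_)
  · exact (iIndepFun_yf hχ hL n).comp (fun h z => u (n + h) * z)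
      (fun h => measurable_id.const_mul _)
  · rw [integral_const_mul, norm_mul]
    refine (mul_le_of_le_one_left (norm_nonneg _) (hu _)).trans ?_
    refine (norm_integral_yf hχ y (n + h)).trans (le_trans ?_ hκ)
    rw [Real.exp_le_exp]
    have h1 := hg h h.2
    have h2 := Mean_sum (μ := μ) hχ (y := y) (N := N) (m := n + h) (by omega)
    linarith

theorem mean_yf [IsProbabilityMeasure μ] (hχ : RM μ χ) {L : ℕ} {Θ : (Fin L → ℂ) → ℂ} {κ τ : ℝ}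
    (hΘ : Admis μ L Θ κ τ) (hτ : 0 ≤ τ)
    {u : ℕ → ℂ} (hu : ∀ n, ‖u n‖ ≤ 1) {y : ℕ} (hy : 1 ≤ y) (hL : L ≤ y) {N : ℕ}
    (hN : 1 ≤ N) {A : ℝ} (hA : 0 < A)
    (hAN : A ≤ ∑ p ∈ Finset.Ioc y N with p.Prime, Vr μ χ p / p)
    (hκ : Real.exp (-A / 4) ≤ κ) :
    ‖∫ ω, avg Θ (fun n => u n * Yf χ y n ω) N ∂μ‖ ≤ τ + (L * (12 / A + 1 / y) + L / N) := by
  classical
  have hN0 : (0 : ℝ) < N := by exact_mod_cast hN
  set J : ℕ → ℂ := fun n => ∫ ω, Θ (fun h : Fin L => u (n + h) * Yf χ y (n + h) ω) ∂μ with hJ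
  have hb : ∀ n (ω : Ω), ‖Θ (fun h : Fin L => u (n + h) * Yf χ y (n + h) ω)‖ ≤ 1 := fun n ω =>
    hΘ.bd _ (fun h => Mean_norm hχ hu y n h ω)
  have hint : ∀ n, Integrable (fun ω => Θ (fun h : Fin L => u (n + h) * Yf χ y (n + h) ω)) μ :=
    fun n => Integrable.of_bound (Mean_measT hχ hΘ.meas u y n).aestronglyMeasurable 1
      (Filter.Eventually.of_forall (hb n))
  have h1 : ∫ ω, avg Θ (fun n => u n * Yf χ y n ω) N ∂μ =
      (1 / (N : ℂ)) * ∑ n ∈ Finset.Icc 1 N, J n := by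
    unfold avg
    rw [integral_const_mul, integral_finsetSum _ (fun n _ => hint n)]
  have hJ1 : ∀ n, ‖J n‖ ≤ 1 := fun n => by
    have h := norm_integral_le_of_norm_le_const (μ := μ) (Filter.Eventually.of_forall (hb n))
    simpa using h
  set S : Finset ℕ := (Finset.Icc 1 N).filter (fun n => ∃ i < L, N < n + i ∨
      ∑ p ∈ Finset.Ioc y N with (p.Prime ∧ p ∣ n + i ∧ ¬ p ^ 2 ∣ n + i), Vr μ χ p < A / 2) with hS
  have hcard : (S.card : ℝ) ≤ L * (12 * N / A + N / y) + L := by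
    refine num57_badw (Vr μ χ) (vr_nonneg μ χ) (vr_le_one hχ) y N L hy A hA hAN S ?_
    intro n hn
    rw [hS, Finset.mem_filter, Finset.mem_Icc] at hn
    exact ⟨hn.1.1, hn.1.2, hn.2⟩
  have hgood : ∀ n ∈ Finset.Icc 1 N, n ∉ S → ‖J n‖ ≤ τ := by
    intro n hn hnS
    have h2 : ¬ ∃ i < L, N < n + i ∨
      ∑ p ∈ Finset.Ioc y N with (p.Prime ∧ p ∣ n + i ∧ ¬ p ^ 2 ∣ n + i), Vr μ χ p < A / 2 := by
      intro h3
      exact hnS (by rw [hS, Finset.mem_filter]; exact ⟨hn, h3⟩)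
    push Not at h2
    exact Mean_good hχ hΘ hu hL hκ (Finset.mem_Icc.1 hn).1 (fun i hi => (h2 i hi).2)
  have hsum : ‖∑ n ∈ Finset.Icc 1 N, J n‖ ≤ S.card + N * τ := by
    refine (norm_sum_le _ _).trans ?_
    have h3 : ∀ n ∈ Finset.Icc 1 N, ‖J n‖ ≤ (if n ∈ S then 1 else 0) + τ := by
      intro n hn
      by_cases h : n ∈ S
      · rw [if_pos h]
        linarith [hJ1 n]
      · rw [if_neg h]
        linarith [hgood n hn h]
    refine (Finset.sum_le_sum h3).trans ?_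
    rw [Finset.sum_add_distrib, Finset.sum_const, Nat.card_Icc, ← Finset.sum_filter,
      Finset.sum_const]
    have h4 : ((Finset.Icc 1 N).filter (fun n => n ∈ S)).card ≤ S.card :=
      Finset.card_le_card (fun n hn => (Finset.mem_filter.1 hn).2)
    have h5 : (((Finset.Icc 1 N).filter (fun n => n ∈ S)).card : ℝ) ≤ S.card := by
      exact_mod_cast h4
    simp only [nsmul_eq_mul, mul_one, Nat.add_sub_cancel]
    linarith
  rw [h1, norm_mul]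
  have h6 : ‖(1 / (N : ℂ))‖ = 1 / N := by
    rw [norm_div, norm_one, Complex.norm_natCast]
  rw [h6]
  have h7 : (1 / (N : ℝ)) * ‖∑ n ∈ Finset.Icc 1 N, J n‖ ≤
      (1 / (N : ℝ)) * (L * (12 * N / A + N / y) + L + N * τ) := by
    refine mul_le_mul_of_nonneg_left (hsum.trans ?_) (by positivity)
    linarith
  refine h7.trans (le_of_eq ?_)
  have hy0 : (y : ℝ) ≠ 0 := by
    have : (0 : ℝ) < y := by exact_mod_cast hy
    exact this.ne'
  field_simp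
  ring

end Pool.Agent.RSC
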