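import Pool.Agent.RSC.Vari
import Pool.Agent.RSC.Mean
import Pool.Agent.RSC.Fubi

/-!
# Prob (size 3): the averages of `χ` itself

PROOF.  Let `b = τ + (L (12/A + 1/y) + L/N)`.  For `n ∈ Icc 1 N` and `h < L` we have `n + h ≥ 1`, so
`χ ω (n + h) = Uf χ y (n + h) ω * Yf χ y (n + h) ω` (`uf_mul_yf`); hence
`avg Θ (χ ω) N = F (X ω, Z ω)`, `X ω = fun n => Uf χ y n ω`, `Z ω = fun n => Yf χ y n ω`,
`F (x, z) = avg Θ (fun n => x n * z n) N`, a measurable function on `(ℕ → ℂ) × (ℕ → ℂ)`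
(`Finset.measurable_sum`, `hΘ.meas.comp (measurable_pi_iff.2 ..)`).  `X` and `Z` are independent
(`indepFun_uf_yf`).  Let `E = {(x, z) | b + t < ‖F (x, z)‖}` and `S = {x | ∀ n, ‖x n‖ ≤ 1}`
(measurable: countable intersection), which contains all `X ω` (`norm_uf`).  For `x ∈ S`:
`{ω | b + t < ‖F (x, Z ω)‖} ⊆ {ω | t ≤ ‖F (x, Z ω) - ∫ F (x, Z ·)‖}` by `mean_yf` with `u = x`
and the triangle inequality, and the measure of the latter is bounded by `conc_yf`.  Conclude with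
`fubini_indep`.
-/

open Filter Topology MeasureTheory ProbabilityTheory ComplexConjugate

namespace Pool.Agent.RSC

variable {Ω : Type*} [MeasurableSpace Ω] {μ : Measure Ω} {χ : Ω → ℕ → ℂ}

private theorem Prob_avg_congr {L : ℕ} (Θ : (Fin L → ℂ) → ℂ) {f g : ℕ → ℂ} (N : ℕ)
    (h : ∀ n, 1 ≤ n → f n = g n) : avg Θ f N = avg Θ g N := by
  unfold avg
  congr 1
  refine Finset.sum_congr rfl fun n hn => ?_
  have hn1 : 1 ≤ n := (Finset.mem_Icc.1 hn).1
  congr 1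
  funext k
  exact h _ (by omega)

private theorem Prob_meas {L : ℕ} {Θ : (Fin L → ℂ) → ℂ} (hΘ : Measurable Θ) (N : ℕ) :
    Measurable (fun q : (ℕ → ℂ) × (ℕ → ℂ) => avg Θ (fun n => q.1 n * q.2 n) N) := by
  unfold avg
  refine Measurable.const_mul ?_ _
  refine Finset.measurable_sum _ fun n _ => ?_
  refine hΘ.comp (measurable_pi_iff.2 fun k => ?_)
  exact ((measurable_pi_apply _).comp measurable_fst).mul
    ((measurable_pi_apply _).comp measurable_snd)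

theorem prob_avg [IsProbabilityMeasure μ] (hχ : RM μ χ) {L : ℕ} {Θ : (Fin L → ℂ) → ℂ} {κ τ : ℝ}
    (hΘ : Admis μ L Θ κ τ) (hτ : 0 ≤ τ) {y : ℕ} (hy : 1 ≤ y) (hL : L ≤ y) {N : ℕ}
    (hN : 1 ≤ N) (hLN : L ≤ N) {A : ℝ} (hA : 0 < A)
    (hAN : A ≤ ∑ p ∈ Finset.Ioc y N with p.Prime, Vr μ χ p / p)
    (hκ : Real.exp (-A / 4) ≤ κ) {t : ℝ} (ht : 0 < t) :
    μ {ω | τ + (L * (12 / A + 1 / y) + L / N) + t < ‖avg Θ (χ ω) N‖} ≤
      ENNReal.ofReal (36 * L ^ 2 / (y * t ^ 2)) := by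
  have hF := Prob_meas hΘ.meas N
  have hE : MeasurableSet {q : (ℕ → ℂ) × (ℕ → ℂ) |
      τ + (L * (12 / A + 1 / y) + L / N) + t < ‖avg Θ (fun n => q.1 n * q.2 n) N‖} :=
    measurableSet_lt measurable_const hF.norm
  have hS : MeasurableSet {x : ℕ → ℂ | ∀ n, ‖x n‖ ≤ 1} := by
    have : {x : ℕ → ℂ | ∀ n, ‖x n‖ ≤ 1} = ⋂ n, {x : ℕ → ℂ | ‖x n‖ ≤ 1} := by
      ext x; simp
    rw [this]
    exact MeasurableSet.iInter fun n => measurableSet_le (measurable_pi_apply n).norm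
      measurable_const
  have hX : Measurable (fun ω (n : ℕ) => Uf χ y n ω) :=
    measurable_pi_iff.2 fun n => measurable_uf hχ y n
  have hZ : Measurable (fun ω (n : ℕ) => Yf χ y n ω) :=
    measurable_pi_iff.2 fun n => measurable_yf hχ y n
  have key := fubini_indep (μ := μ) hX hZ (indepFun_uf_yf hχ y) hS
    (fun ω n => norm_uf hχ y n ω) hE (ρ := ENNReal.ofReal (36 * L ^ 2 / (y * t ^ 2))) ?_
  · have hset : {ω | τ + (L * (12 / A + 1 / y) + L / N) + t < ‖avg Θ (χ ω) N‖} =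
        {ω | ((fun n : ℕ => Uf χ y n ω), (fun n : ℕ => Yf χ y n ω)) ∈
          {q : (ℕ → ℂ) × (ℕ → ℂ) |
            τ + (L * (12 / A + 1 / y) + L / N) + t < ‖avg Θ (fun n => q.1 n * q.2 n) N‖}} := by
      ext ω
      simp only [Set.mem_setOf_eq]
      rw [Prob_avg_congr Θ N (f := χ ω) (g := fun n => Uf χ y n ω * Yf χ y n ω)
        (fun n hn => uf_mul_yf hχ y hn ω)]
    rw [hset]
    exact key
  · intro x hx
    refine le_trans (measure_mono ?_)
      (conc_yf hχ hΘ.meas hΘ.bd (u := x) hx hy hN hLN ht)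
    intro ω hω
    simp only [Set.mem_setOf_eq] at hω ⊢
    have hm := mean_yf hχ hΘ hτ (u := x) hx hy hL hN hA hAN hκ
    have htri := norm_sub_norm_le (avg Θ (fun n => x n * Yf χ y n ω) N)
      (∫ ω', avg Θ (fun n => x n * Yf χ y n ω') N ∂μ)
    linarith

end Pool.Agent.RSC
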