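import Pool.Agent.RSC.Defs

open Filter Topology MeasureTheory ProbabilityTheory ComplexConjugate

namespace Pool.Agent.RSC

variable {Ω : Type*} [mΩ : MeasurableSpace Ω] {μ : Measure Ω} {χ : Ω → ℕ → ℂ}

theorem sg_mono {S T : Set Nat.Primes} (h : S ⊆ T) : Sg χ S ≤ Sg χ T :=
  biSup_mono h

theorem sg_le (hχ : RM μ χ) (S : Set Nat.Primes) : Sg χ S ≤ mΩ := by
  refine iSup₂_le fun p _ => ?_
  exact Measurable.comap_le (measurable_pi_iff.2 fun k => hχ.meas _)

theorem sg_indep (hχ : RM μ χ) {S T : Set Nat.Primes} (hST : Disjoint S T) :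
    Indep (Sg χ S) (Sg χ T) μ := by
  refine indep_iSup_of_disjoint (fun p => ?_) hχ.indep.iIndep hST
  exact Measurable.comap_le (measurable_pi_iff.2 fun k => hχ.meas _)

theorem indepFun_of_sg (hχ : RM μ χ) {S T : Set Nat.Primes} (hST : Disjoint S T)
    {β γ : Type*} [MeasurableSpace β] [MeasurableSpace γ] {X : Ω → β} {Z : Ω → γ}
    (hX : Measurable[Sg χ S] X) (hZ : Measurable[Sg χ T] Z) : IndepFun X Z μ := by
  rw [IndepFun_iff_Indep]
  exact indep_of_indep_of_le_right (indep_of_indep_of_le_left (sg_indep hχ hST) hX.comap_le)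
    hZ.comap_le

theorem iIndepFun_of_sg (hχ : RM μ χ) {ι : Type*} [Fintype ι] (S : ι → Set Nat.Primes)
    (hS : Pairwise (fun h h' => Disjoint (S h) (S h'))) {X : ι → Ω → ℂ}
    (hX : ∀ h, Measurable[Sg χ (S h)] (X h)) : iIndepFun X μ := by
  classical
  have hprob : IsProbabilityMeasure μ := hχ.indep.isProbabilityMeasure
  rw [iIndepFun_iff_measure_inter_preimage_eq_mul]
  intro s
  induction s using Finset.induction_on with
  | empty => intro A _; simp
  | insert a s has ih =>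
    intro A hA
    rw [Finset.prod_insert has, Finset.set_biInter_insert]
    have h1 := ih (sets := A) (fun i hi => hA i (Finset.mem_insert_of_mem hi))
    rw [← h1]
    have hdis : Disjoint (S a) (⋃ i ∈ s, S i) := by
      rw [Set.disjoint_iUnion₂_right]
      intro i hi
      exact hS (fun e => has (e ▸ hi))
    have hind := sg_indep hχ hdis
    rw [Indep_iff] at hind
    apply hind
    · exact hX a (hA a (Finset.mem_insert_self _ _))
    · refine Finset.measurableSet_biInter s fun i hi => ?_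
      have hmono : Sg χ (S i) ≤ Sg χ (⋃ i ∈ s, S i) :=
        sg_mono (Set.subset_biUnion_of_mem (u := fun i => S i) (by simpa using hi))
      exact hmono _ (hX i (hA i (Finset.mem_insert_of_mem hi)))

theorem factor_sg (χ : Ω → ℕ → ℂ) (p : Nat.Primes) (k : ℕ) (S : Set Nat.Primes) (hp : p ∈ S) :
    Measurable[Sg χ S] (fun ω => χ ω ((p : ℕ) ^ k)) := by
  have h1 : MeasurableSpace.comap (fun (ω : Ω) (k : ℕ) => χ ω ((p : ℕ) ^ k)) inferInstance ≤
      Sg χ S := le_biSup (fun p : Nat.Primes =>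
        MeasurableSpace.comap (fun (ω : Ω) (k : ℕ) => χ ω ((p : ℕ) ^ k)) inferInstance) hp
  have h2 : Measurable[MeasurableSpace.comap (fun (ω : Ω) (k : ℕ) => χ ω ((p : ℕ) ^ k))
      inferInstance] (fun ω => χ ω ((p : ℕ) ^ k)) :=
    (measurable_pi_apply k).comp (comap_measurable (fun (ω : Ω) (k : ℕ) => χ ω ((p : ℕ) ^ k)))
  exact h2.mono h1 le_rfl

theorem yf_sg (χ : Ω → ℕ → ℂ) (y n : ℕ) (S : Set Nat.Primes)
    (hS : ∀ p : Nat.Primes, y < (p : ℕ) → (p : ℕ) ∣ n → p ∈ S) :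
    Measurable[Sg χ S] (Yf χ y n) := by
  have h : Measurable[Sg χ S] (fun ω => ∏ p ∈ n.primeFactors.filter (fun p : ℕ => y < p),
      χ ω (p ^ n.factorization p)) := by
    refine @Finset.measurable_fun_prod _ _ _ _ _ _ (Sg χ S) _ _ fun p hp => ?_
    rw [Finset.mem_filter, Nat.mem_primeFactors] at hp
    exact factor_sg χ ⟨p, hp.1.1⟩ _ S (hS ⟨p, hp.1.1⟩ hp.2 hp.1.2.1)
  exact h

theorem uf_sg (χ : Ω → ℕ → ℂ) (y n : ℕ) (S : Set Nat.Primes)
    (hS : ∀ p : Nat.Primes, ¬ y < (p : ℕ) → (p : ℕ) ∣ n → p ∈ S) :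
    Measurable[Sg χ S] (Uf χ y n) := by
  have h : Measurable[Sg χ S] (fun ω => ∏ p ∈ n.primeFactors.filter (fun p : ℕ => ¬ y < p),
      χ ω (p ^ n.factorization p)) := by
    refine @Finset.measurable_fun_prod _ _ _ _ _ _ (Sg χ S) _ _ fun p hp => ?_
    rw [Finset.mem_filter, Nat.mem_primeFactors] at hp
    exact factor_sg χ ⟨p, hp.1.1⟩ _ S (hS ⟨p, hp.1.1⟩ hp.2 hp.1.2.1)
  exact h

/-- the values at single primes are independent -/
theorem iIndepFun_prime (hχ : RM μ χ) :
    iIndepFun (fun (p : Nat.Primes) (ω : Ω) => χ ω (p : ℕ)) μ := by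
  have h := hχ.indep.comp (fun _ v => v 1) (fun _ => measurable_pi_apply 1)
  simpa [Function.comp_def] using h

end Pool.Agent.RSC
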