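import Pool.Agent.RSC.Ind
import Pool.Agent.RSC.Fact
import Pool.Agent.RSC.Num57

/-!
# Vari (size 5): concentration of the averages over the large primes

PROOF.  Let `X n ω = Θ (fun h => u (n + h) * Yf χ y (n + h) ω)`, measurable with `‖X n ω‖ ≤ 1`, and
`D n = X n - ∫ X n`, `‖D n ω‖ ≤ 2`, `∫ D n = 0`.  Then `avg - ∫ avg = (1/N) ∑ D n` and
`∫ ‖∑_{n ≤ N} D n‖² = re ∑_{n, m} ∫ D n * conj (D m)` (finite sums, bounded functions).  Let `S` be
the finset of the pairs `(n, m)` in `[1, N]²` sharing a prime `> y` as in `num57_pairs`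
(`#S ≤ 9 L² N² / y`).  For a pair outside `S`, `X n` and `X m` are independent (`indepFun_windows`
and `IndepFun.comp`), hence `∫ D n * conj (D m) = 0` (`IndepFun.integral_mul_eq_mul_integral`); for
the other pairs the integral is at most `4` in modulus.  So `∫ ‖avg - ∫ avg‖² ≤ 36 L² / y` and
Chebyshev (`mul_meas_ge_le_integral_of_nonneg` for `fun ω => ‖avg - ∫ avg‖ ^ 2` and the level
`t ^ 2`, or `meas_ge_le_lintegral_div`) gives the statement.
-/

open Filter Topology MeasureTheory ProbabilityTheory ComplexConjugate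

namespace Pool.Agent.RSC

variable {Ω : Type*} [MeasurableSpace Ω] {μ : Measure Ω} {χ : Ω → ℕ → ℂ}

/-- second moment of a sum of bounded centred variables, independent off a set of pairs -/
private lemma vari_second {Ω : Type*} [MeasurableSpace Ω] {μ : Measure Ω} [IsProbabilityMeasure μ]
    (X : ℕ → Ω → ℂ) (hm : ∀ n, Measurable (X n)) (hb : ∀ n ω, ‖X n ω‖ ≤ 1) (I : Finset ℕ)
    (S : Finset (ℕ × ℕ)) (hS : ∀ n ∈ I, ∀ m ∈ I, (n, m) ∉ S → IndepFun (X n) (X m) μ) :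
    ∫ ω, ‖∑ n ∈ I, (X n ω - ∫ ω', X n ω' ∂μ)‖ ^ 2 ∂μ ≤ 4 * S.card := by
  classical
  set D : ℕ → Ω → ℂ := fun n ω => X n ω - ∫ ω', X n ω' ∂μ with hD
  have hmean : ∀ n, ‖∫ ω', X n ω' ∂μ‖ ≤ 1 := by
    intro n
    have := norm_integral_le_of_norm_le_const (μ := μ) (f := X n) (C := 1)
      (Filter.Eventually.of_forall fun ω => hb n ω)
    simpa using this
  have hDm : ∀ n, Measurable (D n) := fun n => (hm n).sub_const _
  have hDb : ∀ n ω, ‖D n ω‖ ≤ 2 := by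
    intro n ω
    refine (norm_sub_le _ _).trans ?_
    have h1 := hb n ω
    have h2 := hmean n
    linarith
  have hXint : ∀ n, Integrable (X n) μ := fun n =>
    Integrable.of_bound (hm n).aestronglyMeasurable 1 (Filter.Eventually.of_forall (hb n))
  have hD0 : ∀ n, ∫ ω, D n ω ∂μ = 0 := by
    intro n
    rw [hD]
    simp only
    rw [integral_sub (hXint n) (integrable_const _)]
    simp
  have hprodb : ∀ n m ω, ‖D n ω * conj (D m ω)‖ ≤ 4 := by
    intro n m ω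
    rw [norm_mul, Complex.norm_conj]
    calc ‖D n ω‖ * ‖D m ω‖ ≤ 2 * 2 := mul_le_mul (hDb n ω) (hDb m ω) (norm_nonneg _) (by norm_num)
      _ = 4 := by norm_num
  have hconj : ∀ m, Measurable fun ω => conj (D m ω) := fun m =>
    Complex.continuous_conj.measurable.comp (hDm m)
  have hprodint : ∀ n m, Integrable (fun ω => D n ω * conj (D m ω)) μ := fun n m =>
    Integrable.of_bound ((hDm n).mul (hconj m)).aestronglyMeasurable 4
      (Filter.Eventually.of_forall (hprodb n m))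
  have h1 : ∀ ω, (((‖∑ n ∈ I, D n ω‖ ^ 2 : ℝ)) : ℂ) = ∑ n ∈ I, ∑ m ∈ I, D n ω * conj (D m ω) := by
    intro ω
    rw [← Complex.normSq_eq_norm_sq, Complex.normSq_eq_conj_mul_self, map_sum, mul_comm,
      Finset.sum_mul_sum]
  have h2 : ((∫ ω, ‖∑ n ∈ I, D n ω‖ ^ 2 ∂μ : ℝ) : ℂ) =
      ∑ n ∈ I, ∑ m ∈ I, ∫ ω, D n ω * conj (D m ω) ∂μ := by
    rw [← integral_complex_ofReal]
    simp_rw [h1]
    rw [integral_finsetSum _ fun n _ => integrable_finsetSum _ fun m _ => hprodint n m]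
    apply Finset.sum_congr rfl
    intro n _
    rw [integral_finsetSum _ fun m _ => hprodint n m]
  have h3 : ∀ n ∈ I, ∀ m ∈ I, ‖∫ ω, D n ω * conj (D m ω) ∂μ‖ ≤ if (n, m) ∈ S then 4 else 0 := by
    intro n hn m hm'
    split_ifs with h
    · have := norm_integral_le_of_norm_le_const (μ := μ) (f := fun ω => D n ω * conj (D m ω)) (C := 4)
        (Filter.Eventually.of_forall fun ω => hprodb n m ω)
      simpa using this
    · have hI := hS n hn m hm' h
      have hI2 : IndepFun (D n) (fun ω => conj (D m ω)) μ :=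
        hI.comp (φ := fun z : ℂ => z - ∫ ω', X n ω' ∂μ)
          (ψ := fun z : ℂ => conj (z - ∫ ω', X m ω' ∂μ)) (measurable_id.sub_const _)
          (Complex.continuous_conj.measurable.comp (measurable_id.sub_const _))
      have h4 := hI2.integral_fun_mul_eq_mul_integral (hDm n).aestronglyMeasurable
        (hconj m).aestronglyMeasurable
      rw [h4, hD0 n, zero_mul, norm_zero]
  have h5 : ∫ ω, ‖∑ n ∈ I, D n ω‖ ^ 2 ∂μ ≤ ‖((∫ ω, ‖∑ n ∈ I, D n ω‖ ^ 2 ∂μ : ℝ) : ℂ)‖ := by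
    rw [Complex.norm_real]
    exact Real.le_norm_self _
  refine h5.trans ?_
  rw [h2]
  calc ‖∑ n ∈ I, ∑ m ∈ I, ∫ ω, D n ω * conj (D m ω) ∂μ‖
      ≤ ∑ n ∈ I, ∑ m ∈ I, (if (n, m) ∈ S then (4 : ℝ) else 0) := by
        refine (norm_sum_le _ _).trans (Finset.sum_le_sum fun n hn => ?_)
        refine (norm_sum_le _ _).trans (Finset.sum_le_sum fun m hm' => ?_)
        exact h3 n hn m hm'
    _ = ∑ q ∈ I ×ˢ I, (if q ∈ S then (4 : ℝ) else 0) := by rw [Finset.sum_product]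
    _ = (((I ×ˢ I).filter fun q => q ∈ S).card : ℝ) * 4 := by
        rw [← Finset.sum_filter, Finset.sum_const, nsmul_eq_mul]
    _ ≤ (S.card : ℝ) * 4 := by
        apply mul_le_mul_of_nonneg_right _ (by norm_num)
        have : ((I ×ˢ I).filter fun q => q ∈ S) ⊆ S := fun q hq => (Finset.mem_filter.1 hq).2
        exact_mod_cast Finset.card_le_card this
    _ = _ := by ring

theorem conc_yf [IsProbabilityMeasure μ] (hχ : RM μ χ) {L : ℕ} {Θ : (Fin L → ℂ) → ℂ}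
    (hΘm : Measurable Θ) (hΘ : ∀ z : Fin L → ℂ, (∀ h, ‖z h‖ ≤ 1) → ‖Θ z‖ ≤ 1)
    {u : ℕ → ℂ} (hu : ∀ n, ‖u n‖ ≤ 1) {y : ℕ} (hy : 1 ≤ y) {N : ℕ} (hN : 1 ≤ N) (hLN : L ≤ N)
    {t : ℝ} (ht : 0 < t) :
    μ {ω | t ≤ ‖avg Θ (fun n => u n * Yf χ y n ω) N -
      ∫ ω', avg Θ (fun n => u n * Yf χ y n ω') N ∂μ‖} ≤
      ENNReal.ofReal (36 * L ^ 2 / (y * t ^ 2)) := by
  classical
  have hN0 : (0 : ℝ) < N := by exact_mod_cast hN
  have hy0 : (0 : ℝ) < y := by exact_mod_cast hy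
  set X : ℕ → Ω → ℂ := fun n ω => Θ (fun h : Fin L => u (n + h) * Yf χ y (n + h) ω) with hXdef
  have hm : ∀ n, Measurable (X n) := by
    intro n
    apply hΘm.comp
    rw [measurable_pi_iff]
    intro h
    exact (measurable_yf hχ y (n + h)).const_mul _
  have hb : ∀ n ω, ‖X n ω‖ ≤ 1 := by
    intro n ω
    apply hΘ
    intro h
    rw [norm_mul]
    exact mul_le_one₀ (hu _) (norm_nonneg _) (norm_yf hχ y _ ω)
  have hXint : ∀ n, Integrable (X n) μ := fun n =>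
    Integrable.of_bound (hm n).aestronglyMeasurable 1 (Filter.Eventually.of_forall (hb n))
  set S : Finset (ℕ × ℕ) := ((Finset.Icc 1 N) ×ˢ (Finset.Icc 1 N)).filter fun q =>
    ∃ i < L, ∃ j < L, ∃ p : ℕ, p.Prime ∧ y < p ∧ p ∣ q.1 + i ∧ p ∣ q.2 + j with hSdef
  have hScard : (S.card : ℝ) ≤ 9 * L ^ 2 * N ^ 2 / y := by
    apply num57_pairs y N L hy hLN
    intro q hq
    rw [hSdef, Finset.mem_filter, Finset.mem_product, Finset.mem_Icc, Finset.mem_Icc] at hq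
    obtain ⟨⟨⟨h1, h2⟩, h3, h4⟩, h5⟩ := hq
    exact ⟨h1, h2, h3, h4, h5⟩
  have hS : ∀ n ∈ Finset.Icc 1 N, ∀ m ∈ Finset.Icc 1 N, (n, m) ∉ S → IndepFun (X n) (X m) μ := by
    intro n hn m hm' hnm
    have hsep : ∀ p : ℕ, p.Prime → y < p → ∀ h h' : Fin L, p ∣ n + h → ¬ p ∣ m + h' := by
      intro p hp hyp h h' hpn hpm
      apply hnm
      rw [hSdef, Finset.mem_filter, Finset.mem_product]
      exact ⟨⟨hn, hm'⟩, h, h.2, h', h'.2, p, hp, hyp, hpn, hpm⟩
    have hI := indepFun_windows hχ hsep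
    exact hI.comp (φ := fun z : Fin L → ℂ => Θ (fun h => u (n + h) * z h))
      (ψ := fun z : Fin L → ℂ => Θ (fun h => u (m + h) * z h))
      (hΘm.comp (measurable_pi_iff.2 fun h => (measurable_pi_apply h).const_mul _))
      (hΘm.comp (measurable_pi_iff.2 fun h => (measurable_pi_apply h).const_mul _))
  have h2 := vari_second X hm hb (Finset.Icc 1 N) S hS
  set F : Ω → ℂ := fun ω => ∑ n ∈ Finset.Icc 1 N, (X n ω - ∫ ω', X n ω' ∂μ) with hF
  have hdiff : ∀ ω, avg Θ (fun n => u n * Yf χ y n ω) N -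
      ∫ ω', avg Θ (fun n => u n * Yf χ y n ω') N ∂μ = (1 / (N : ℂ)) * F ω := by
    intro ω
    unfold avg
    rw [integral_const_mul, integral_finsetSum _ fun n _ => hXint n, hF, ← mul_sub]
    simp only
    rw [Finset.sum_sub_distrib]
  have hset : {ω | t ≤ ‖avg Θ (fun n => u n * Yf χ y n ω) N -
      ∫ ω', avg Θ (fun n => u n * Yf χ y n ω') N ∂μ‖} ⊆ {ω | t ^ 2 * (N : ℝ) ^ 2 ≤ ‖F ω‖ ^ 2} := by
    intro ω hω
    have hω' : t ≤ ‖avg Θ (fun n => u n * Yf χ y n ω) N -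
      ∫ ω', avg Θ (fun n => u n * Yf χ y n ω') N ∂μ‖ := hω
    rw [hdiff, norm_mul, norm_div, norm_one, Complex.norm_natCast, one_div, inv_mul_eq_div,
      le_div_iff₀ hN0] at hω'
    show t ^ 2 * (N : ℝ) ^ 2 ≤ ‖F ω‖ ^ 2
    rw [← mul_pow]
    gcongr
  have hFm : Measurable F := Finset.measurable_sum _ fun n _ => (hm n).sub_const _
  have hFb : ∀ ω, ‖F ω‖ ≤ 2 * N := by
    intro ω
    refine (norm_sum_le _ _).trans ?_
    have h3 : ∀ n ∈ Finset.Icc 1 N, ‖X n ω - ∫ ω', X n ω' ∂μ‖ ≤ 2 := by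
      intro n _
      refine (norm_sub_le _ _).trans ?_
      have h4 := hb n ω
      have h5 := norm_integral_le_of_norm_le_const (μ := μ) (f := X n) (C := 1)
        (Filter.Eventually.of_forall fun ω => hb n ω)
      have h6 : ‖∫ ω', X n ω' ∂μ‖ ≤ 1 := by simpa using h5
      linarith
    refine (Finset.sum_le_card_nsmul _ _ _ h3).trans (le_of_eq ?_)
    simp
    ring
  have hFint : Integrable (fun ω => ‖F ω‖ ^ 2) μ := by
    refine Integrable.of_bound (hFm.norm.pow_const 2).aestronglyMeasurable ((2 * N) ^ 2)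
      (Filter.Eventually.of_forall fun ω => ?_)
    rw [Real.norm_of_nonneg (by positivity)]
    have := hFb ω
    gcongr
  have hmk := mul_meas_ge_le_integral_of_nonneg (μ := μ) (f := fun ω => ‖F ω‖ ^ 2)
    (Filter.Eventually.of_forall fun ω => by positivity) hFint (t ^ 2 * (N : ℝ) ^ 2)
  have hreal : μ.real {ω | t ^ 2 * (N : ℝ) ^ 2 ≤ ‖F ω‖ ^ 2} ≤ 36 * L ^ 2 / (y * t ^ 2) := by
    have hpos : 0 < t ^ 2 * (N : ℝ) ^ 2 := by positivity
    have h7 : t ^ 2 * (N : ℝ) ^ 2 * μ.real {ω | t ^ 2 * (N : ℝ) ^ 2 ≤ ‖F ω‖ ^ 2} ≤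
        t ^ 2 * (N : ℝ) ^ 2 * (36 * L ^ 2 / (y * t ^ 2)) := by
      refine hmk.trans (h2.trans ?_)
      calc 4 * (S.card : ℝ) ≤ 4 * (9 * L ^ 2 * N ^ 2 / y) := by gcongr
        _ = _ := by field_simp; ring
    exact le_of_mul_le_mul_left h7 hpos
  calc μ {ω | t ≤ ‖avg Θ (fun n => u n * Yf χ y n ω) N -
      ∫ ω', avg Θ (fun n => u n * Yf χ y n ω') N ∂μ‖}
      ≤ μ {ω | t ^ 2 * (N : ℝ) ^ 2 ≤ ‖F ω‖ ^ 2} := measure_mono hset
    _ = ENNReal.ofReal (μ.real {ω | t ^ 2 * (N : ℝ) ^ 2 ≤ ‖F ω‖ ^ 2}) := by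
        rw [ofReal_measureReal]
    _ ≤ _ := ENNReal.ofReal_le_ofReal hreal

end Pool.Agent.RSC
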